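import Pool.Agent.K4H7.ET.E7

set_option autoImplicit false
set_option maxHeartbeats 400000

/-!
Adapted coordinates for hyperplanes in general position.
-/

namespace Pool.Agent.K4H7.EZ

/-- adapted coordinates -/
lemma exists_frame {k : Type} [Field k] {n q : ℕ} (H : Fin q → Fin (n + 1) → k)
    (hH : ∀ I : Finset (Fin q), I.card ≤ n + 1 → LinearIndependent k (fun i : I => H i))
    (hq : n + 2 ≤ q) :
    ∃ (e : Fin (n + 1) ↪ Fin q) (j : Fin q) (N N' : Matrix (Fin (n + 1)) (Fin (n + 1)) k)
      (R : Fin (n + 1) → k), j ∉ Set.range e ∧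
      (∀ l i, ∑ a, H (e l) a * N a i = if l = i then 1 else 0) ∧ N * N' = 1 ∧ N' * N = 1 ∧
      (∀ l, ∑ a, H j a * N a l = R l) ∧ ∀ l, R l ≠ 0 := by
  classical
  set e : Fin (n + 1) ↪ Fin q := Fin.castLEEmb (by omega : n + 1 ≤ q) with he
  have hev : ∀ l, (e l : ℕ) = l := fun l => rfl
  set j : Fin q := ⟨n + 1, by omega⟩ with hj
  have hje : j ∉ Set.range e := by
    rintro ⟨l, hl⟩
    have h1 := congrArg Fin.val hl
    rw [hev, hj] at h1
    have := l.2
    simp only at h1
    omega
  set M : Matrix (Fin (n + 1)) (Fin (n + 1)) k := Matrix.of fun l a => H (e l) a with hM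
  have hMu : IsUnit M := by
    rw [← Matrix.linearIndependent_rows_iff_isUnit]
    have h1 := hH (Finset.univ.image e) (by
      rw [Finset.card_image_of_injective _ e.injective, Finset.card_univ, Fintype.card_fin])
    have h2 : LinearIndependent k (fun l : Fin (n + 1) => H (e l)) := by
      have h3 := h1.comp (fun l : Fin (n + 1) =>
        (⟨e l, Finset.mem_image_of_mem _ (Finset.mem_univ _)⟩ : (Finset.univ.image e : Finset _)))
        (fun a b h => e.injective (congrArg Subtype.val h))
      exact h3
    exact h2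
  have hdet : IsUnit M.det := (Matrix.isUnit_iff_isUnit_det M).1 hMu
  have h1 : M * M⁻¹ = 1 := Matrix.mul_nonsing_inv M hdet
  have h2 : M⁻¹ * M = 1 := Matrix.nonsing_inv_mul M hdet
  refine ⟨e, j, M⁻¹, M, fun l => ∑ a, H j a * M⁻¹ a l, hje, ?_, h2, h1, fun l => rfl, ?_⟩
  · intro l i
    have h3 := congrFun (congrFun h1 l) i
    rw [Matrix.mul_apply, Matrix.one_apply] at h3
    exact h3
  · intro l hl
    -- `H j` is a combination of the other forms
    have h3 : H j = ∑ i, (∑ a, H j a * M⁻¹ a i) • H (e i) := by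
      funext b
      rw [Finset.sum_apply]
      simp only [Pi.smul_apply, smul_eq_mul, Finset.sum_mul]
      rw [Finset.sum_comm]
      have h4 : ∀ a, ∑ i, H j a * M⁻¹ a i * H (e i) b = H j a * (if a = b then 1 else 0) := by
        intro a
        have h5 := congrFun (congrFun h2 a) b
        rw [Matrix.mul_apply, Matrix.one_apply] at h5
        rw [← h5, Finset.mul_sum]
        exact Finset.sum_congr rfl fun i _ => by rw [hM, Matrix.of_apply, mul_assoc]
      rw [Finset.sum_congr rfl fun a _ => h4 a]
      simp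
    set I : Finset (Fin q) := insert j ((Finset.univ.erase l).image e) with hI
    have hjI : j ∉ (Finset.univ.erase l).image e := by
      intro h
      obtain ⟨i, _, hi⟩ := Finset.mem_image.1 h
      exact hje ⟨i, hi⟩
    have hcard : I.card ≤ n + 1 := by
      rw [hI, Finset.card_insert_of_notMem hjI, Finset.card_image_of_injective _ e.injective,
        Finset.card_erase_of_mem (Finset.mem_univ _), Finset.card_univ, Fintype.card_fin]
      omega
    have h4 := hH I hcard
    have h6 : H j ∉ Submodule.span k ((fun i : I => H i) '' {i : I | i.1 ≠ j}) :=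
      h4.notMem_span_image (x := ⟨j, Finset.mem_insert_self _ _⟩) (by simp)
    apply h6
    rw [h3]
    refine Submodule.sum_mem _ fun i _ => ?_
    by_cases hil : i = l
    · rw [hil]
      have hl' : ∑ a, H j a * M⁻¹ a l = 0 := hl
      rw [hl', zero_smul]
      exact Submodule.zero_mem _
    · refine Submodule.smul_mem _ _ (Submodule.subset_span
        ⟨⟨e i, Finset.mem_insert_of_mem (Finset.mem_image_of_mem _
          (Finset.mem_erase.2 ⟨hil, Finset.mem_univ _⟩))⟩, ?_, rfl⟩)
      intro h
      exact hje ⟨i, h⟩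

end Pool.Agent.K4H7.EZ
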