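import Pool.Agent.K4H7.ET.E7
import Pool.Agent.Helper259.HtExt

set_option autoImplicit false
set_option maxHeartbeats 400000

/-!
Sums over places and heights, with constants uniform in the field.
-/

namespace Pool.Agent.K4H7.EZ

open NumberField IsDedekindDomain Height Real
open Pool.Agent.K4H7.ET (SU Sm nm)

variable {L : Type} [Field L] [NumberField L]

lemma one_le_prod_of {ι : Type} (s : Finset ι) (f : ι → ℝ) (h : ∀ i, 1 ≤ f i) :
    1 ≤ ∏ i ∈ s, f i := by
  classical
  induction s using Finset.induction_on with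
  | empty => simp
  | insert a s ha ih =>
    rw [Finset.prod_insert ha]
    nlinarith [h a, ih]

lemma posLog_Sm (T : Finset (HeightOneSpectrum (𝓞 L))) (y : L) :
    Sm T (fun f => log⁺ (f y)) ≤ logHeight₁ y := by
  classical
  rw [NumberField.logHeight₁_eq]
  unfold Sm
  refine add_le_add le_rfl ?_
  have hfin : (Function.support fun v : FinitePlace L => log⁺ (v y)).Finite := by
    by_cases hy : y = 0
    · refine (Set.finite_empty).subset fun v hv => ?_
      rw [Function.mem_support] at hv
      exact (hv (by rw [hy, map_zero, posLog_zero])).elim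
    · refine (FinitePlace.hasFiniteMulSupport hy).subset fun v hv => ?_
      rw [Function.mem_support] at hv
      rw [Function.mem_mulSupport]
      intro h
      exact hv (by rw [h, posLog_one])
  rw [← finsum_comp_equiv (FinitePlace.equivHeightOneSpectrum (K := L)).symm]
  have hfin' : (Function.support fun v : HeightOneSpectrum (𝓞 L) =>
      log⁺ (FinitePlace.mk v y)).Finite := by
    refine Set.Finite.of_finite_image (f := fun v => FinitePlace.mk v) (hfin.subset ?_) ?_
    · rintro _ ⟨v, hv, rfl⟩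
      exact hv
    · intro v _ w _ h
      exact (FinitePlace.equivHeightOneSpectrum (K := L)).symm.injective h
  rw [finsum_eq_sum_of_support_subset (s := T ∪ hfin'.toFinset) _ (by
    intro v hv
    rw [Finset.coe_union]
    exact Or.inr ((Set.Finite.coe_toFinset hfin').symm ▸ hv))]
  exact Finset.sum_le_sum_of_subset_of_nonneg Finset.subset_union_left
    fun v _ _ => posLog_nonneg

/-- heights of vectors which are integral outside `T` -/
lemma logHeight_le_Sm (T : Finset (HeightOneSpectrum (𝓞 L))) {n : ℕ} (x : Fin (n + 1) → L)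
    (hx0 : x ≠ 0) (hx : ∀ v, v ∉ T → ∀ j, FinitePlace.mk v (x j) ≤ 1) :
    logHeight x ≤ Sm T (fun f => log (nm f x)) := by
  classical
  have h1 : ∀ w : InfinitePlace L, 0 < ⨆ i, w (x i) := fun w => Pool.Agent.K4H7.ET.nm_pos w.1 hx0
  have h2 : ∀ v : FinitePlace L, 0 < ⨆ i, v (x i) := fun v => Pool.Agent.K4H7.ET.nm_pos v.1 hx0
  have hms : (Function.mulSupport fun v : FinitePlace L => ⨆ i, v (x i)).Finite := by
    obtain ⟨j, hj⟩ := Function.ne_iff.1 hx0
    have hj' : x j ≠ 0 := hj
    refine (Set.Finite.biUnion (Set.finite_univ (α := {i // x i ≠ 0})) fun i _ =>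
      FinitePlace.hasFiniteMulSupport i.2).subset ?_
    intro v hv
    by_contra hc
    apply hv
    simp only [Set.mem_univ, Set.iUnion_true, Set.mem_iUnion, not_exists, Function.mem_mulSupport,
      not_not] at hc
    refine le_antisymm (ciSup_le fun i => ?_) ?_
    · by_cases hi : x i = 0
      · rw [hi, map_zero]
        exact zero_le_one
      · exact (hc ⟨i, hi⟩).le
    · rw [← hc ⟨j, hj'⟩]
      exact le_ciSup (f := fun i => v (x i)) (Set.finite_range _).bddAbove j
  have hms' : (Function.mulSupport fun v : HeightOneSpectrum (𝓞 L) =>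
      ⨆ i, FinitePlace.mk v (x i)).Finite := by
    refine Set.Finite.of_finite_image (f := fun v => FinitePlace.mk v) (hms.subset ?_) ?_
    · rintro _ ⟨v, hv, rfl⟩
      exact hv
    · intro v _ w _ h
      exact (FinitePlace.equivHeightOneSpectrum (K := L)).symm.injective h
  have e : ∏ᶠ w : FinitePlace L, ⨆ i, w (x i) =
      ∏ v ∈ T ∪ hms'.toFinset, ⨆ i, FinitePlace.mk v (x i) := by
    rw [← finprod_comp_equiv (FinitePlace.equivHeightOneSpectrum (K := L)).symm]
    refine finprod_eq_prod_of_mulSupport_subset _ fun v hv => ?_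
    rw [Finset.coe_union]
    exact Or.inr ((Set.Finite.coe_toFinset hms').symm ▸ hv)
  have h3 : ∀ v : HeightOneSpectrum (𝓞 L), 0 < ⨆ i, FinitePlace.mk v (x i) := fun v => h2 _
  rw [logHeight_eq_log_mulHeight, NumberField.mulHeight_eq hx0, e,
    Real.log_mul (Finset.prod_pos fun w _ => pow_pos (h1 w) _).ne'
      (Finset.prod_pos fun v _ => h3 v).ne', Real.log_prod fun w _ => (pow_pos (h1 w) _).ne',
    Real.log_prod fun v _ => (h3 v).ne']
  unfold Sm
  refine add_le_add (Finset.sum_congr rfl fun w _ => Real.log_pow _ _).le ?_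
  rw [← Finset.sum_sdiff (Finset.subset_union_left : T ⊆ T ∪ hms'.toFinset)]
  have h4 : ∑ v ∈ (T ∪ hms'.toFinset) \ T, Real.log (⨆ i, FinitePlace.mk v (x i)) ≤ 0 := by
    refine Finset.sum_nonpos fun v hv => ?_
    refine Real.log_nonpos (h3 v).le (ciSup_le fun i => hx v (Finset.mem_sdiff.1 hv).2 i)
  have h5 : ∑ v ∈ T, Real.log (⨆ i, FinitePlace.mk v (x i)) =
      ∑ v ∈ T, Real.log (nm (FinitePlace.mk v).1 x) := rfl
  rw [← h5]
  linarith

lemma Sm_const (T : Finset (HeightOneSpectrum (𝓞 L))) (c : ℝ) :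
    Sm T (fun _ => c) = (Module.finrank ℚ L + T.card) * c := by
  unfold Sm
  rw [Finset.sum_const, nsmul_eq_mul, ← Finset.sum_mul, add_mul]
  congr 2
  rw [← totalWeight_eq_finrank, totalWeight_eq_sum_mult]
  push_cast
  rfl

/-- a bound for the values of forms -/
lemma Sm_one_add (T : Finset (HeightOneSpectrum (𝓞 L))) {n : ℕ} (a : Fin (n + 1) → L) :
    Sm T (fun f => log (1 + ∑ j, f (a j))) ≤
      (Module.finrank ℚ L + T.card) * log (n + 2) + ∑ j, logHeight₁ (a j) := by
  have h1 : ∀ f : AbsoluteValue L ℝ, log (1 + ∑ j, f (a j)) ≤ log (n + 2) + ∑ j, log⁺ (f (a j)) := by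
    intro f
    have h2 : 1 + ∑ j, f (a j) ≤ (n + 2) * ∏ j, max 1 (f (a j)) := by
      have h3 : ∀ j, f (a j) ≤ ∏ j, max 1 (f (a j)) := by
        intro j
        rw [← Finset.mul_prod_erase _ _ (Finset.mem_univ j)]
        have h4 : 1 ≤ ∏ i ∈ Finset.univ.erase j, max 1 (f (a i)) :=
          one_le_prod_of _ _ fun i => le_max_left _ _
        calc f (a j) ≤ max 1 (f (a j)) * 1 := by rw [mul_one]; exact le_max_right _ _
          _ ≤ _ := mul_le_mul_of_nonneg_left h4 (zero_le_one.trans (le_max_left _ _))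
      have h5 : 1 ≤ ∏ j, max 1 (f (a j)) := one_le_prod_of _ _ fun i => le_max_left _ _
      calc 1 + ∑ j, f (a j) ≤ ∏ j, max 1 (f (a j)) + ∑ _j : Fin (n + 1), ∏ j, max 1 (f (a j)) :=
            add_le_add h5 (Finset.sum_le_sum fun j _ => h3 j)
        _ = (n + 2) * ∏ j, max 1 (f (a j)) := by
            rw [Finset.sum_const, Finset.card_univ, Fintype.card_fin, nsmul_eq_mul]
            push_cast
            ring
    have h6 : 0 < 1 + ∑ j, f (a j) := by
      have : 0 ≤ ∑ j, f (a j) := Finset.sum_nonneg fun j _ => f.nonneg _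
      linarith
    have h7 := Real.log_le_log h6 h2
    rw [Real.log_mul (by positivity) (Finset.prod_pos fun j _ =>
      lt_of_lt_of_le one_pos (le_max_left _ _)).ne', Real.log_prod fun j _ =>
      (lt_of_lt_of_le one_pos (le_max_left _ _)).ne'] at h7
    refine h7.trans (le_of_eq ?_)
    congr 1
    refine Finset.sum_congr rfl fun j _ => ?_
    rw [posLog_eq_log_max_one (f.nonneg _)]
  refine (Pool.Agent.K4H7.ET.Sm_mono T _ _ h1).trans ?_
  rw [Pool.Agent.K4H7.ET.Sm_add, Sm_const, Pool.Agent.K4H7.ET.Sm_sum]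
  exact add_le_add le_rfl (Finset.sum_le_sum fun j _ => posLog_Sm T _)

/-- heights in extensions -/
lemma logHeight₁_ext {k : Type} [Field k] [NumberField k] [Algebra k L] (a : k) :
    logHeight₁ (algebraMap k L a) = Module.finrank k L * logHeight₁ a := by
  have h := Pool.Agent.Helper259.HtExt.logHeight_ext (L := L) ![a, 1]
  have h2 : (fun i => algebraMap k L (![a, 1] i)) = ![algebraMap k L a, 1] := by
    funext i
    fin_cases i <;> simp
  rwa [h2, ← logHeight₁_eq_logHeight, ← logHeight₁_eq_logHeight] at h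

end Pool.Agent.K4H7.EZ
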