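import Pool.Agent.K4H7.EZ.A2

set_option autoImplicit false
set_option maxHeartbeats 400000

/-!
The points `x = A u(s)`, where `u(s)` consists of products of powers of `s` and `s - 1`.
-/

namespace Pool.Agent.K4H7.EZ

open NumberField IsDedekindDomain Height Real
open Pool.Agent.K4H7.ET (SU Sm nm vl)

section loc

variable {L : Type} [Field L]

/-- products of powers of `s` and `s - 1` -/
def fam {n : ℕ} (α β : Fin (n + 1) → ℕ) (s : L) : Fin (n + 1) → L :=
  fun l => s ^ α l * (s - 1) ^ β l

lemma fam_lower {n : ℕ} (f : AbsoluteValue L ℝ) (α β : Fin (n + 1) → ℕ) (b : ℕ) (s : L)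
    (l₀ l₁ : Fin (n + 1)) (h0 : α l₀ = 0 ∧ β l₀ = 0) (h1 : α l₁ + β l₁ = b) :
    b * log⁺ (f s) - b * log 2 ≤ log (nm f (fam α β s)) := by
  rcases le_or_gt 2 (f s) with h | h
  · have h2 : f s / 2 ≤ f (s - 1) := by
      have h3 := f.add_le (s - 1) 1
      rw [sub_add_cancel, map_one] at h3
      linarith
    have h3 : (f s / 2) ^ b ≤ f (fam α β s l₁) := by
      unfold fam
      rw [map_mul, map_pow, map_pow, ← h1, pow_add]
      exact mul_le_mul (pow_le_pow_left₀ (by linarith) (by linarith) _)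
        (pow_le_pow_left₀ (by linarith) h2 _) (by positivity) (by positivity)
    have h4 := Real.log_le_log (by positivity) (h3.trans (Pool.Agent.K4H7.ET.le_nm f _ l₁))
    rw [Real.log_pow, Real.log_div (by linarith) two_ne_zero] at h4
    have h5 : log⁺ (f s) = log (f s) := posLog_eq_log (by
      rw [abs_of_nonneg (f.nonneg s)]
      linarith)
    rw [h5]
    linarith
  · have h2 : log⁺ (f s) ≤ log 2 := by
      rw [posLog_eq_log_max_one (f.nonneg s)]
      exact Real.log_le_log (lt_of_lt_of_le one_pos (le_max_left _ _))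
        (max_le one_le_two h.le)
    have h3 : 1 ≤ nm f (fam α β s) := by
      have h4 := Pool.Agent.K4H7.ET.le_nm f (fam α β s) l₀
      have h5 : fam α β s l₀ = 1 := by
        unfold fam
        rw [h0.1, h0.2, pow_zero, pow_zero, one_mul]
      rwa [h5, map_one] at h4
    have h4 := Real.log_nonneg h3
    have h5 : (0 : ℝ) ≤ b := Nat.cast_nonneg _
    nlinarith

lemma fam_upper {n : ℕ} (f : AbsoluteValue L ℝ) (α β : Fin (n + 1) → ℕ) (b : ℕ) (s : L)
    (hpos : 0 < nm f (fam α β s)) (h1 : ∀ l, α l + β l ≤ b) :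
    log (nm f (fam α β s)) ≤ b * log⁺ (f s) + b * log 2 := by
  set M : ℝ := max 1 (f s) with hM
  have hM1 : 1 ≤ M := le_max_left _ _
  have hM2 : f s ≤ M := le_max_right _ _
  have h2 : f (s - 1) ≤ 2 * M := by
    have h3 := f.add_le s (-1)
    rw [← sub_eq_add_neg, f.map_neg, map_one] at h3
    linarith
  have h3 : nm f (fam α β s) ≤ (2 * M) ^ b := by
    refine ciSup_le fun l => ?_
    unfold fam
    rw [map_mul, map_pow, map_pow]
    calc f s ^ α l * f (s - 1) ^ β l ≤ (2 * M) ^ α l * (2 * M) ^ β l :=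
          mul_le_mul (pow_le_pow_left₀ (f.nonneg _) (by linarith) _)
            (pow_le_pow_left₀ (f.nonneg _) h2 _) (pow_nonneg (f.nonneg _) _) (by positivity)
      _ = (2 * M) ^ (α l + β l) := (pow_add _ _ _).symm
      _ ≤ (2 * M) ^ b := pow_le_pow_right₀ (by linarith) (h1 l)
  have h4 := Real.log_le_log hpos h3
  rw [Real.log_pow, Real.log_mul two_ne_zero (by linarith)] at h4
  rw [posLog_eq_log_max_one (f.nonneg s)]
  linarith

lemma abv_int (f : AbsoluteValue L ℝ) (z : ℤ) : f (z : L) ≤ |(z : ℝ)| := by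
  have h1 : ∀ m : ℕ, f (m : L) ≤ m := by
    intro m
    induction m with
    | zero => simp
    | succ m ih =>
      push_cast
      refine (f.add_le _ _).trans ?_
      rw [map_one]
      linarith
  obtain ⟨m, rfl | rfl⟩ := Int.eq_nat_or_neg z
  · push_cast
    rw [abs_of_nonneg (Nat.cast_nonneg m)]
    exact h1 m
  · push_cast
    rw [f.map_neg, abs_neg, abs_of_nonneg (Nat.cast_nonneg m)]
    exact h1 m

/-- the sum of the absolute values of the coefficients -/
noncomputable def cs (R : Polynomial ℤ) : ℝ := ∑ i ∈ Finset.range (R.natDegree + 1), |(R.coeff i : ℝ)|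

lemma cs_nonneg (R : Polynomial ℤ) : 0 ≤ cs R := Finset.sum_nonneg fun _ _ => abs_nonneg _

lemma pol_upper (f : AbsoluteValue L ℝ) (R : Polynomial ℤ) (s : L)
    (h0 : Polynomial.aeval s R ≠ 0) :
    log (f (Polynomial.aeval s R)) ≤ log (1 + cs R) + R.natDegree * log⁺ (f s) := by
  set M : ℝ := max 1 (f s) with hM
  have hM1 : 1 ≤ M := le_max_left _ _
  have hM2 : f s ≤ M := le_max_right _ _
  have h1 : f (Polynomial.aeval s R) ≤ (1 + cs R) * M ^ R.natDegree := by
    rw [Polynomial.aeval_eq_sum_range]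
    refine (f.sum_le _ _).trans ?_
    have h2 : ∀ i ∈ Finset.range (R.natDegree + 1), f (R.coeff i • s ^ i) ≤
        |(R.coeff i : ℝ)| * M ^ R.natDegree := by
      intro i hi
      rw [zsmul_eq_mul, map_mul, map_pow]
      refine mul_le_mul (abv_int f _) ?_ (pow_nonneg (f.nonneg _) _) (abs_nonneg _)
      exact (pow_le_pow_left₀ (f.nonneg _) hM2 _).trans
        (pow_le_pow_right₀ hM1 (Nat.lt_succ_iff.1 (Finset.mem_range.1 hi)))
    refine (Finset.sum_le_sum h2).trans ?_
    rw [← Finset.sum_mul]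
    refine mul_le_mul_of_nonneg_right ?_ (by positivity)
    have : cs R = ∑ i ∈ Finset.range (R.natDegree + 1), |(R.coeff i : ℝ)| := rfl
    linarith
  have h2 := Real.log_le_log (f.pos_iff.2 h0) h1
  have h3 := cs_nonneg R
  rw [Real.log_mul (by linarith) (by positivity), Real.log_pow] at h2
  rwa [posLog_eq_log_max_one (f.nonneg s)]

end loc

section glob

variable {L : Type} [Field L] [NumberField L]

lemma su_ht {T : Finset (HeightOneSpectrum (𝓞 L))} {s : L} (hs : SU T s) :
    logHeight₁ s = Sm T (fun f => log⁺ (f s)) := by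
  refine le_antisymm ?_ (posLog_Sm T s)
  rw [logHeight₁_eq_logHeight]
  have h1 := logHeight_le_Sm T (n := 1) ![s, 1] (by
    intro h
    have := congrFun h 1
    simp at this) (by
    intro v hv j
    fin_cases j
    · show FinitePlace.mk v s ≤ 1
      rw [hs.2 v hv]
    · show FinitePlace.mk v (1 : L) ≤ 1
      rw [map_one])
  refine h1.trans (Pool.Agent.K4H7.ET.Sm_mono T _ _ fun f => ?_)
  rw [posLog_eq_log_max_one (f.nonneg s)]
  have h2 : nm f ![s, 1] ≤ max 1 (f s) := by
    refine ciSup_le fun j => ?_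
    fin_cases j
    · exact le_max_right _ _
    · show f 1 ≤ _
      rw [map_one]
      exact le_max_left _ _
  refine Real.log_le_log (Pool.Agent.K4H7.ET.nm_pos f ?_) h2
  intro h
  have := congrFun h 1
  simp at this

lemma Sm_log_le (T : Finset (HeightOneSpectrum (𝓞 L))) (y : L) :
    Sm T (fun f => log (f y)) ≤ logHeight₁ y :=
  (Pool.Agent.K4H7.ET.Sm_mono T _ _ fun f => by
    rcases eq_or_lt_of_le (f.nonneg y) with h | h
    · rw [← h, Real.log_zero, posLog_zero]
    · rw [posLog_eq_log_max_one (f.nonneg y)]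
      exact Real.log_le_log h (le_max_right _ _)).trans (posLog_Sm T y)

lemma Sm_su (T : Finset (HeightOneSpectrum (𝓞 L))) {s : L} (hs : SU T s) :
    Sm T (fun f => log (f s)) = 0 := Pool.Agent.K4H7.ET.su_sum hs

end glob

end Pool.Agent.K4H7.EZ
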