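import Pool.Agent.K4H7.EZ.A3

set_option autoImplicit false
set_option maxHeartbeats 400000

/-!
The main estimate for the points `x = A u(s)`.
-/

namespace Pool.Agent.K4H7.EZ

open NumberField IsDedekindDomain Height Real
open Pool.Agent.K4H7.ET (SU Sm nm vl)

section loc

variable {L : Type} [Field L]

lemma loc_one {n q : ℕ} (f : AbsoluteValue L ℝ) (H : Fin q → Fin (n + 1) → L)
    (e : Fin (n + 1) ↪ Fin q) (P : Fin (n + 1) → L) (hP : ∀ l, P l ≠ 0)
    (x u : Fin (n + 1) → L) (hu : u ≠ 0) (hx : x ≠ 0) (hA : ∀ l, vl (H (e l)) x = P l * u l) :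
    log (nm f u) ≤ log (nm f x) + (∑ l, log⁺ (f (P l)⁻¹) + ∑ i, log (1 + ∑ a, f (H i a))) := by
  classical
  have hg : ∀ i, 1 ≤ 1 + ∑ a, f (H i a) := fun i => by
    have : 0 ≤ ∑ a, f (H i a) := Finset.sum_nonneg fun a _ => f.nonneg _
    linarith
  have hnx := Pool.Agent.K4H7.ET.nm_pos f hx
  have h1 : ∀ l, f (u l) ≤ (∏ l, max 1 (f (P l)⁻¹)) * (∏ i, (1 + ∑ a, f (H i a))) * nm f x := by
    intro l
    have h2 : u l = (P l)⁻¹ * vl (H (e l)) x := by
      rw [hA l, inv_mul_cancel_left₀ (hP l)]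
    rw [h2, map_mul, mul_assoc]
    have h3 : f (P l)⁻¹ ≤ ∏ l, max 1 (f (P l)⁻¹) := by
      rw [← Finset.mul_prod_erase _ _ (Finset.mem_univ l)]
      have h4 : 1 ≤ ∏ i ∈ Finset.univ.erase l, max 1 (f (P i)⁻¹) :=
        one_le_prod_of _ _ fun i => le_max_left _ _
      calc f (P l)⁻¹ ≤ max 1 (f (P l)⁻¹) * 1 := by rw [mul_one]; exact le_max_right _ _
        _ ≤ _ := mul_le_mul_of_nonneg_left h4 (zero_le_one.trans (le_max_left _ _))
    have h5 : 1 + ∑ a, f (H (e l) a) ≤ ∏ i, (1 + ∑ a, f (H i a)) := by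
      rw [← Finset.mul_prod_erase _ _ (Finset.mem_univ (e l))]
      have h4 : 1 ≤ ∏ i ∈ Finset.univ.erase (e l), (1 + ∑ a, f (H i a)) :=
        one_le_prod_of _ _ fun i => hg i
      calc 1 + ∑ a, f (H (e l) a) = (1 + ∑ a, f (H (e l) a)) * 1 := (mul_one _).symm
        _ ≤ _ := mul_le_mul_of_nonneg_left h4 (zero_le_one.trans (hg _))
    refine mul_le_mul h3 ?_ (f.nonneg _) ((f.nonneg _).trans h3)
    exact (Pool.Agent.K4H7.ET.abv_vl f (H (e l)) x).trans (mul_le_mul_of_nonneg_right h5 hnx.le)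
  have h2 : nm f u ≤ (∏ l, max 1 (f (P l)⁻¹)) * (∏ i, (1 + ∑ a, f (H i a))) * nm f x :=
    ciSup_le h1
  have p1 : 0 < ∏ l, max 1 (f (P l)⁻¹) :=
    Finset.prod_pos fun l _ => lt_of_lt_of_le one_pos (le_max_left _ _)
  have p2 : 0 < ∏ i, (1 + ∑ a, f (H i a)) :=
    Finset.prod_pos fun i _ => lt_of_lt_of_le one_pos (hg i)
  have h3 := Real.log_le_log (Pool.Agent.K4H7.ET.nm_pos f hu) h2
  rw [Real.log_mul (mul_pos p1 p2).ne' hnx.ne', Real.log_mul p1.ne' p2.ne',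
    Real.log_prod fun l _ => (lt_of_lt_of_le one_pos (le_max_left _ _)).ne',
    Real.log_prod fun i _ => (lt_of_lt_of_le one_pos (hg i)).ne'] at h3
  have h4 : ∑ l, log⁺ (f (P l)⁻¹) = ∑ l, log (max 1 (f (P l)⁻¹)) :=
    Finset.sum_congr rfl fun l _ => posLog_eq_log_max_one (f.nonneg _)
  rw [h4]
  linarith

lemma loc_two {n q : ℕ} (f : AbsoluteValue L ℝ) (H : Fin q → Fin (n + 1) → L)
    (e : Fin (n + 1) ↪ Fin q) (j : Fin q) (hje : j ∉ Set.range e)
    (P : Fin (n + 1) → L) (hP : ∀ l, P l ≠ 0)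
    (x u : Fin (n + 1) → L) (hu : ∀ l, u l ≠ 0) (hx : x ≠ 0)
    (hA : ∀ l, vl (H (e l)) x = P l * u l) (hHx : ∀ i, vl (H i) x ≠ 0) :
    (n + 2) * log (nm f x) - ∑ l, log (f (P l)) - ∑ l, log (f (u l)) -
      log (f (vl (H j) x)) - ∑ i, log (1 + ∑ a, f (H i a)) ≤
      ∑ i, log (nm f x / f (vl (H i) x)) := by
  classical
  have hnx := Pool.Agent.K4H7.ET.nm_pos f hx
  set g : Fin q → ℝ := fun i => log (1 + ∑ a, f (H i a)) with hg
  set t : Fin q → ℝ := fun i => log (nm f x) - log (f (vl (H i) x)) with ht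
  have hs : ∀ i, 0 ≤ ∑ a, f (H i a) := fun i => Finset.sum_nonneg fun a _ => f.nonneg _
  have hg0 : ∀ i, 0 ≤ g i := fun i => Real.log_nonneg (by have := hs i; linarith)
  have htg : ∀ i, 0 ≤ t i + g i := by
    intro i
    have h1 := Real.log_le_log (f.pos_iff.2 (hHx i)) (Pool.Agent.K4H7.ET.abv_vl f (H i) x)
    rw [Real.log_mul (by have := hs i; linarith) hnx.ne'] at h1
    simp only [ht, hg]
    linarith
  have h1 : ∑ i, log (nm f x / f (vl (H i) x)) = ∑ i, t i :=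
    Finset.sum_congr rfl fun i _ => Real.log_div hnx.ne' (f.pos_iff.2 (hHx i)).ne'
  have hjE : j ∉ Finset.univ.map e := by
    intro h
    obtain ⟨l, _, hl⟩ := Finset.mem_map.1 h
    exact hje ⟨l, hl⟩
  have h2 : ∑ i ∈ insert j (Finset.univ.map e), (t i + g i) ≤ ∑ i, (t i + g i) :=
    Finset.sum_le_sum_of_subset_of_nonneg (Finset.subset_univ _) fun i _ _ => htg i
  have h3 : ∑ i ∈ insert j (Finset.univ.map e), t i ≤
      ∑ i ∈ insert j (Finset.univ.map e), (t i + g i) :=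
    Finset.sum_le_sum fun i _ => by have := hg0 i; linarith
  rw [Finset.sum_insert hjE, Finset.sum_map] at h3
  have h4 : ∑ l, t (e l) = (n + 1) * log (nm f x) - ∑ l, log (f (P l)) - ∑ l, log (f (u l)) := by
    have h5 : ∀ l, t (e l) = log (nm f x) - log (f (P l)) - log (f (u l)) := by
      intro l
      simp only [ht]
      rw [hA l, map_mul, Real.log_mul (f.pos_iff.2 (hP l)).ne' (f.pos_iff.2 (hu l)).ne']
      ring
    rw [Finset.sum_congr rfl fun l _ => h5 l, Finset.sum_sub_distrib, Finset.sum_sub_distrib,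
      Finset.sum_const, Finset.card_univ, Fintype.card_fin, nsmul_eq_mul]
    push_cast
    ring
  rw [h4] at h3
  have h8 : ∑ i, (t i + g i) = ∑ i, t i + ∑ i, g i := Finset.sum_add_distrib
  rw [h8] at h2
  have h6 : t j = log (nm f x) - log (f (vl (H j) x)) := rfl
  rw [h1]
  rw [h6] at h3
  have h7 : ∑ i, log (1 + ∑ a, f (H i a)) = ∑ i, g i := rfl
  rw [h7]
  linarith

lemma loc_three {n : ℕ} (f : AbsoluteValue L ℝ) (A : Matrix (Fin (n + 1)) (Fin (n + 1)) L)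
    (u : Fin (n + 1) → L) (hu : u ≠ 0) (hx : A.mulVec u ≠ 0) :
    log (nm f (A.mulVec u)) ≤ log (nm f u) + ∑ a, log (1 + ∑ i, f (A a i)) := by
  classical
  have hnu := Pool.Agent.K4H7.ET.nm_pos f hu
  have hg : ∀ a, 1 ≤ 1 + ∑ i, f (A a i) := fun a => by
    have : 0 ≤ ∑ i, f (A a i) := Finset.sum_nonneg fun i _ => f.nonneg _
    linarith
  have h1 : nm f (A.mulVec u) ≤ (∏ a, (1 + ∑ i, f (A a i))) * nm f u := by
    refine ciSup_le fun a => ?_
    have h2 : A.mulVec u a = vl (A a) u := rfl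
    rw [h2]
    refine (Pool.Agent.K4H7.ET.abv_vl f (A a) u).trans (mul_le_mul_of_nonneg_right ?_ hnu.le)
    rw [← Finset.mul_prod_erase _ _ (Finset.mem_univ a)]
    have h4 : 1 ≤ ∏ a ∈ Finset.univ.erase a, (1 + ∑ i, f (A a i)) :=
      one_le_prod_of _ _ fun a => hg a
    calc 1 + ∑ i, f (A a i) = (1 + ∑ i, f (A a i)) * 1 := (mul_one _).symm
      _ ≤ _ := mul_le_mul_of_nonneg_left h4 (zero_le_one.trans (hg _))
  have h2 := Real.log_le_log (Pool.Agent.K4H7.ET.nm_pos f hx) h1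
  rw [Real.log_mul (Finset.prod_pos fun a _ => lt_of_lt_of_le one_pos (hg a)).ne' hnu.ne',
    Real.log_prod fun a _ => (lt_of_lt_of_le one_pos (hg a)).ne'] at h2
  linarith

end loc

section glob

variable {L : Type} [Field L] [NumberField L]

lemma Sm_congr (T : Finset (HeightOneSpectrum (𝓞 L))) {φ ψ : AbsoluteValue L ℝ → ℝ}
    (h : ∀ f, φ f = ψ f) : Sm T φ = Sm T ψ := by
  rw [show φ = ψ from funext h]

theorem est_L {n q : ℕ} (T : Finset (HeightOneSpectrum (𝓞 L))) (H : Fin q → Fin (n + 1) → L)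
    (e : Fin (n + 1) ↪ Fin q) (j : Fin q) (hje : j ∉ Set.range e)
    (A : Matrix (Fin (n + 1)) (Fin (n + 1)) L) (P : Fin (n + 1) → L) (hP : ∀ l, P l ≠ 0)
    (m₀ : L) (hm : m₀ ≠ 0) (hA : ∀ u l, vl (H (e l)) (A.mulVec u) = P l * u l)
    (α β : Fin (n + 1) → ℕ) (c : Fin (n + 1) → ℤ) (R : Polynomial ℤ) (b : ℕ)
    (hAj : ∀ u, vl (H j) (A.mulVec u) = m₀ * ∑ l, (c l : L) * u l)
    (hAint : ∀ v, v ∉ T → ∀ a i, FinitePlace.mk v (A a i) ≤ 1)
    (l₀ l₁ : Fin (n + 1)) (hl₀ : α l₀ = 0 ∧ β l₀ = 0) (hl₁ : α l₁ + β l₁ = b)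
    (hb : ∀ l, α l + β l ≤ b) (hR : R.natDegree + (n + 1) ≤ b)
    (s : L) (hs : SU T s) (hs1 : SU T (s - 1))
    (hfs : ∑ l, (c l : L) * fam α β s l = (s - 1) ^ (n + 1) * Polynomial.aeval s R)
    (hHx : ∀ i, vl (H i) (A.mulVec (fam α β s)) ≠ 0) (hx : A.mulVec (fam α β s) ≠ 0)
    (W : ℝ) (hW : W = Module.finrank ℚ L + T.card) :
    logHeight (A.mulVec (fam α β s)) ≤ b * logHeight₁ s +
      (b * (W * log 2) + ∑ a, (W * log (n + 2) + ∑ i, logHeight₁ (A a i))) ∧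
    (n + 1) * logHeight₁ s - (b * (W * log 2) + (∑ l, logHeight₁ (P l) + ∑ l, logHeight₁ (P l)) +
      logHeight₁ m₀ + W * log (1 + cs R) + 2 * ∑ i, (W * log (n + 2) + ∑ a, logHeight₁ (H i a))) ≤
      -(n + 1) * logHeight (A.mulVec (fam α β s)) +
        Sm T (fun f => ∑ i, log (nm f (A.mulVec (fam α β s)) /
          f (vl (H i) (A.mulVec (fam α β s))))) := by
  classical
  set u : Fin (n + 1) → L := fam α β s with hu
  set x : Fin (n + 1) → L := A.mulVec u with hxdef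
  have huSU : ∀ l, SU T (u l) := fun l => (hs.pow _).mul (hs1.pow _)
  have hu0 : ∀ l, u l ≠ 0 := fun l => (huSU l).1
  have hune : u ≠ 0 := fun h => hu0 0 (congrFun h 0)
  have hht := su_ht hs
  have hWc : ∀ c : ℝ, Sm T (fun _ => c) = W * c := fun c => by rw [Sm_const, hW]
  -- the height
  have hxT : ∀ v, v ∉ T → ∀ a, FinitePlace.mk v (x a) ≤ 1 := by
    intro v hv a
    have h1 : x a = ∑ i, A a i * u i := rfl
    rw [h1]
    have h2 : IsNonarchimedean (FinitePlace.mk v ·) := FinitePlace.add_le (FinitePlace.mk v)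
    refine (h2.apply_sum_le_sup Finset.univ_nonempty).trans (Finset.sup'_le _ _ fun i _ => ?_)
    rw [map_mul, (huSU i).2 v hv, mul_one]
    exact hAint v hv a i
  have h1 := logHeight_le_Sm T x hx hxT
  -- upper bound for the sum
  have h2 := Pool.Agent.K4H7.ET.Sm_mono T _ _ fun f => loc_three f A u hune hx
  rw [Pool.Agent.K4H7.ET.Sm_add, Pool.Agent.K4H7.ET.Sm_sum] at h2
  have h3 : ∑ a, Sm T (fun f => log (1 + ∑ i, f (A a i))) ≤
      ∑ a, (W * log (n + 2) + ∑ i, logHeight₁ (A a i)) :=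
    Finset.sum_le_sum fun a _ => by
      have := Sm_one_add T (A a)
      rwa [← hW] at this
  have h4 := Pool.Agent.K4H7.ET.Sm_mono T _ _ fun f =>
    fam_upper f α β b s (Pool.Agent.K4H7.ET.nm_pos f hune) hb
  rw [Pool.Agent.K4H7.ET.Sm_add, Pool.Agent.K4H7.ET.Sm_mul, ← hht, hWc] at h4
  have h5 : W * (b * log 2) = b * (W * log 2) := by ring
  rw [h5] at h4
  refine ⟨by linarith, ?_⟩
  -- the lower bound
  have k1 := Pool.Agent.K4H7.ET.Sm_mono T _ _ fun f => fam_lower f α β b s l₀ l₁ hl₀ hl₁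
  rw [Pool.Agent.K4H7.ET.Sm_sub, Pool.Agent.K4H7.ET.Sm_mul, ← hht, hWc, h5] at k1
  have k2 := Pool.Agent.K4H7.ET.Sm_mono T _ _ fun f =>
    loc_one f H e P hP x u hune hx (fun l => hA u l)
  rw [Pool.Agent.K4H7.ET.Sm_add, Pool.Agent.K4H7.ET.Sm_add, Pool.Agent.K4H7.ET.Sm_sum,
    Pool.Agent.K4H7.ET.Sm_sum] at k2
  have k3 : ∑ l, Sm T (fun f => log⁺ (f (P l)⁻¹)) ≤ ∑ l, logHeight₁ (P l) :=
    Finset.sum_le_sum fun l _ => by
      have := posLog_Sm T (P l)⁻¹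
      rwa [logHeight₁_inv] at this
  have k4 : ∑ i, Sm T (fun f => log (1 + ∑ a, f (H i a))) ≤
      ∑ i, (W * log (n + 2) + ∑ a, logHeight₁ (H i a)) :=
    Finset.sum_le_sum fun i _ => by
      have := Sm_one_add T (H i)
      rwa [← hW] at this
  have k5 := Pool.Agent.K4H7.ET.Sm_mono T _ _ fun f =>
    loc_two f H e j hje P hP x u hu0 hx (fun l => hA u l) hHx
  rw [Pool.Agent.K4H7.ET.Sm_sub, Pool.Agent.K4H7.ET.Sm_sub, Pool.Agent.K4H7.ET.Sm_sub,
    Pool.Agent.K4H7.ET.Sm_sub, Pool.Agent.K4H7.ET.Sm_mul, Pool.Agent.K4H7.ET.Sm_sum,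
    Pool.Agent.K4H7.ET.Sm_sum, Pool.Agent.K4H7.ET.Sm_sum,
    Finset.sum_eq_zero fun l _ => Sm_su T (huSU l)] at k5
  have k6 : ∑ l, Sm T (fun f => log (f (P l))) ≤ ∑ l, logHeight₁ (P l) :=
    Finset.sum_le_sum fun l _ => Sm_log_le T (P l)
  -- the last form
  have hRs : Polynomial.aeval s R ≠ 0 := by
    intro h
    have h6 := hHx j
    rw [hAj u, hfs, h, mul_zero, mul_zero] at h6
    exact h6 rfl
  have k7 : Sm T (fun f => log (f (vl (H j) x))) ≤
      logHeight₁ m₀ + (W * log (1 + cs R) + R.natDegree * logHeight₁ s) := by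
    have h6 : Sm T (fun f => log (f (vl (H j) x))) = Sm T (fun f => log (f m₀)) +
        ((n + 1 : ℕ) * Sm T (fun f => log (f (s - 1))) +
          Sm T (fun f => log (f (Polynomial.aeval s R)))) := by
      rw [← Pool.Agent.K4H7.ET.Sm_mul, ← Pool.Agent.K4H7.ET.Sm_add,
        ← Pool.Agent.K4H7.ET.Sm_add]
      refine Sm_congr T fun f => ?_
      rw [hxdef, hAj u, hfs, map_mul, map_mul, map_pow,
        Real.log_mul (f.pos_iff.2 hm).ne' (mul_pos (pow_pos (f.pos_iff.2 hs1.1) _)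
          (f.pos_iff.2 hRs)).ne', Real.log_mul (pow_pos (f.pos_iff.2 hs1.1) _).ne'
          (f.pos_iff.2 hRs).ne', Real.log_pow]
    rw [h6, Sm_su T hs1, mul_zero, zero_add]
    refine add_le_add (Sm_log_le T m₀) ?_
    have h7 := Pool.Agent.K4H7.ET.Sm_mono T _ _ fun f => pol_upper f R s hRs
    rwa [Pool.Agent.K4H7.ET.Sm_add, Pool.Agent.K4H7.ET.Sm_mul, ← hht, hWc] at h7
  have hRb : (R.natDegree : ℝ) + (n + 1) ≤ b := by exact_mod_cast hR
  have hh0 : 0 ≤ logHeight₁ s := zero_le_logHeight₁ s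
  have k8 : ((R.natDegree : ℝ) + (n + 1)) * logHeight₁ s ≤ b * logHeight₁ s :=
    mul_le_mul_of_nonneg_right hRb hh0
  have k9 : (n + 1 : ℝ) * logHeight x ≤ (n + 1) * Sm T (fun f => log (nm f x)) :=
    mul_le_mul_of_nonneg_left h1 (by positivity)
  have e1 : Sm T (fun f => log (nm f (fam α β s))) = Sm T (fun f => log (nm f u)) := rfl
  rw [e1] at k1
  linarith

end glob

end Pool.Agent.K4H7.EZ
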