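import Mathlib

set_option autoImplicit false
set_option maxHeartbeats 400000

/-!
A family of products of powers of `X` and `X - 1` with a linear combination which vanishes to a high
order at `1`.
-/

namespace Pool.Agent.K4H7.EZ

open Polynomial

/-- products of powers of `X` and `X - 1` -/
noncomputable def fp {A : Type} [CommRing A] {n : ℕ} (α β : Fin (n + 1) → ℕ) :
    Fin (n + 1) → A[X] := fun l => X ^ α l * (X - 1) ^ β l

lemma sq_div (K : ℕ) : ∃ R : ℤ[X], (R.eval 1 : ℤ) = ∑ i ∈ Finset.range (K + 1), (i : ℤ) ^ 2 ∧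
    -1 + X ^ (2 * K + 1) + C (-(2 * K + 1 : ℤ)) * (X ^ K * (X - 1)) = (X - 1) ^ 3 * R := by
  induction K with
  | zero =>
    refine ⟨0, by simp, ?_⟩
    simp only [mul_zero, zero_add, pow_one, Nat.cast_zero, pow_zero, one_mul]
    rw [C_neg]
    simp only [map_one]
    ring
  | succ K ih =>
    obtain ⟨R, hR1, hR⟩ := ih
    refine ⟨X * R + (∑ i ∈ Finset.range (K + 1), X ^ i) ^ 2, ?_, ?_⟩
    · rw [Finset.sum_range_succ (fun i : ℕ => (i : ℤ) ^ 2) (K + 1), ← hR1]
      simp [eval_finsetSum]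
    · have h1 : (X - 1 : ℤ[X]) * (∑ i ∈ Finset.range (K + 1), X ^ i) = X ^ (K + 1) - 1 :=
        mul_geom_sum X (K + 1)
      have h2 : (X - 1 : ℤ[X]) ^ 3 * (X * R + (∑ i ∈ Finset.range (K + 1), X ^ i) ^ 2) =
          X * ((X - 1) ^ 3 * R) +
          (X - 1) * ((X - 1) * (∑ i ∈ Finset.range (K + 1), X ^ i)) ^ 2 := by ring
      rw [h2, ← hR, h1]
      simp only [map_neg, map_add, map_mul, map_natCast, map_one, map_ofNat, Nat.cast_add,
        Nat.cast_one]
      ring

lemma sq_pos (K : ℕ) (hK : 1 ≤ K) : 0 < ∑ i ∈ Finset.range (K + 1), (i : ℤ) ^ 2 := by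
  refine Finset.sum_pos' (fun i _ => by positivity) ⟨1, Finset.mem_range.2 (by omega), by norm_num⟩

/-- the lowest terms -/
lemma lowest {k : Type} [Field k] {ι : Type} (s : Finset ι) (hs : s.Nonempty) (N : ι → ℕ)
    (hN : Set.InjOn N s) (g : ι → k) (hg : ∀ d ∈ s, g d ≠ 0) (v : ι → k[X])
    (hv : ∀ d ∈ s, (v d).coeff 0 ≠ 0) : ∑ d ∈ s, C (g d) * (X ^ N d * v d) ≠ 0 := by
  classical
  obtain ⟨d, hd, hmin⟩ := Finset.exists_min_image s N hs
  intro h
  have h1 := congrArg (fun p => coeff p (N d)) h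
  simp only [finsetSum_coeff, coeff_C_mul, coeff_zero] at h1
  rw [Finset.sum_eq_single d] at h1
  · rw [coeff_X_pow_mul', if_pos le_rfl, Nat.sub_self] at h1
    exact mul_ne_zero (hg d hd) (hv d hd) h1
  · intro d' hd' hne
    have h2 : N d < N d' := lt_of_le_of_ne (hmin d' hd') fun h => hne (hN hd' hd h.symm)
    rw [coeff_X_pow_mul', if_neg (by omega), mul_zero]
  · intro h2
    exact absurd hd h2

lemma base {k : Type} [Field k] (G : MvPolynomial (Fin 3) k) (hG : G ≠ 0) (δ : ℕ)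
    (hGδ : G.IsHomogeneous δ) (K : ℕ) (hK : δ < K) (c : Fin 3 → k) (hc : ∀ i, c i ≠ 0) :
    MvPolynomial.aeval (fun l => C (c l) *
      fp (A := k) (n := 2) ![0, 2 * K + 1, K] ![0, 0, 1] l) G ≠ 0 := by
  classical
  rw [MvPolynomial.aeval_def, MvPolynomial.eval₂_eq']
  have h1 : ∀ d ∈ G.support, algebraMap k k[X] (G.coeff d) *
      ∏ i, (C (c i) * fp (A := k) (n := 2) ![0, 2 * K + 1, K] ![0, 0, 1] i) ^ d i =
      C (G.coeff d * ∏ i, c i ^ d i) * (X ^ ((2 * K + 1) * d 1 + K * d 2) * (X - 1) ^ d 2) := by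
    intro d _
    unfold fp
    rw [Fin.prod_univ_three, Fin.prod_univ_three]
    simp only [Matrix.cons_val_zero, Matrix.cons_val_one, Matrix.cons_val, pow_zero, mul_one,
      pow_one, algebraMap_eq, map_mul, map_pow]
    rw [mul_pow, mul_pow, mul_pow, ← pow_mul, ← pow_mul, pow_add]
    ring
  rw [Finset.sum_congr rfl h1]
  have hdeg : ∀ d ∈ G.support, d 0 + d 1 + d 2 = δ := by
    intro d hd
    have h2 := hGδ (MvPolynomial.mem_support_iff.1 hd)
    rw [Finsupp.weight_apply, Finsupp.sum_fintype _ _ (fun i => by simp), Fin.sum_univ_three] at h2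
    simpa using h2
  refine lowest G.support (by rwa [MvPolynomial.support_nonempty])
    (fun d => (2 * K + 1) * d 1 + K * d 2) ?_ (fun d => G.coeff d * ∏ i, c i ^ d i)
    (fun d hd => mul_ne_zero (MvPolynomial.mem_support_iff.1 hd)
      (Finset.prod_ne_zero_iff.2 fun i _ => pow_ne_zero _ (hc i))) (fun d => (X - 1) ^ d 2) ?_
  · intro d hd d' hd' h
    have h2 := hdeg d hd
    have h3 := hdeg d' hd'
    simp only at h
    have h4 : K * (2 * d 1 + d 2) + d 1 = K * (2 * d' 1 + d' 2) + d' 1 := by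
      calc K * (2 * d 1 + d 2) + d 1 = (2 * K + 1) * d 1 + K * d 2 := by ring
        _ = (2 * K + 1) * d' 1 + K * d' 2 := h
        _ = _ := by ring
    have h5 : d 1 = d' 1 := by
      have h6 := congrArg (· % K) h4
      simp only [Nat.mul_add_mod] at h6
      rwa [Nat.mod_eq_of_lt (by omega), Nat.mod_eq_of_lt (by omega)] at h6
    have h6 : 2 * d 1 + d 2 = 2 * d' 1 + d' 2 := by
      have h7 : K * (2 * d 1 + d 2) = K * (2 * d' 1 + d' 2) := by linarith
      exact Nat.eq_of_mul_eq_mul_left (by omega : 0 < K) h7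
    ext i
    fin_cases i
    · show d 0 = d' 0
      omega
    · show d 1 = d' 1
      omega
    · show d 2 = d' 2
      omega
  · intro d _
    rw [coeff_zero_eq_eval_zero]
    simp

lemma succ_eval {k A : Type} [Field k] [CommRing A] [Algebra k A] {n : ℕ}
    (G : MvPolynomial (Fin (n + 1)) k) (y : A) (s : Fin n → A) :
    ((MvPolynomial.finSuccEquiv k n G).map (MvPolynomial.aeval s : MvPolynomial (Fin n) k →ₐ[k] A)
      |>.eval y) = MvPolynomial.aeval (Fin.cons y s : Fin (n + 1) → A) G := by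
  rw [eval_map]
  have h : ((eval₂RingHom ((MvPolynomial.aeval s : MvPolynomial (Fin n) k →ₐ[k] A) :
      MvPolynomial (Fin n) k →+* A) y).comp
      ((MvPolynomial.finSuccEquiv k n : MvPolynomial (Fin (n + 1)) k →+* _))) =
      ((MvPolynomial.aeval (Fin.cons y s : Fin (n + 1) → A) :
        MvPolynomial (Fin (n + 1)) k →ₐ[k] A) : MvPolynomial (Fin (n + 1)) k →+* A) := by
    refine MvPolynomial.ringHom_ext ?_ ?_
    · intro r
      show eval₂ _ y (MvPolynomial.finSuccEquiv k n (MvPolynomial.C r)) = _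
      rw [MvPolynomial.finSuccEquiv_apply]
      simp
    · intro i
      refine Fin.cases ?_ (fun j => ?_) i
      · show eval₂ _ y (MvPolynomial.finSuccEquiv k n (MvPolynomial.X 0)) = _
        rw [MvPolynomial.finSuccEquiv_X_zero]
        simp
      · show eval₂ _ y (MvPolynomial.finSuccEquiv k n (MvPolynomial.X j.succ)) = _
        rw [MvPolynomial.finSuccEquiv_X_succ]
        simp
  exact congrArg (fun φ : MvPolynomial (Fin (n + 1)) k →+* A => φ G) h

theorem exists_fam {k : Type} [Field k] [CharZero k] (m : ℕ) :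
    ∀ (G : MvPolynomial (Fin (m + 3)) k) (_ : G ≠ 0) (δ : ℕ) (_ : G.IsHomogeneous δ),
    ∃ (α β : Fin (m + 3) → ℕ) (c : Fin (m + 3) → ℤ) (R : ℤ[X]), (∀ l, c l ≠ 0) ∧ R.eval 1 ≠ 0 ∧
      ∑ l, C (c l) * fp (n := m + 2) α β l = (X - 1) ^ (m + 3) * R ∧
      (∃ l₀, α l₀ = 0 ∧ β l₀ = 0) ∧
      MvPolynomial.aeval (fun l => C ((c l : ℤ) : k) * fp (A := k) (n := m + 2) α β l) G ≠ 0 := by
  classical
  induction m with
  | zero =>
    intro G hG δ hGδ
    obtain ⟨R, hR1, hR⟩ := sq_div (δ + 1)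
    have hc0 : ∀ l, (![-1, 1, -(2 * (δ + 1 : ℕ) + 1 : ℤ)] : Fin 3 → ℤ) l ≠ 0 := by
      intro l
      fin_cases l
      · simp
      · simp
      · show -(2 * ((δ + 1 : ℕ) : ℤ) + 1) ≠ 0
        omega
    refine ⟨![0, 2 * (δ + 1) + 1, δ + 1], ![0, 0, 1], ![-1, 1, -(2 * (δ + 1 : ℕ) + 1 : ℤ)], R,
      hc0, ?_, ?_, ⟨0, rfl, rfl⟩, base G hG δ hGδ (δ + 1) (by omega)
        (fun l => (((![-1, 1, -(2 * (δ + 1 : ℕ) + 1 : ℤ)] : Fin 3 → ℤ) l : ℤ) : k))
        fun l => Int.cast_ne_zero.2 (hc0 l)⟩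
    · rw [hR1]
      exact (sq_pos (δ + 1) (by omega)).ne'
    · rw [← hR, Fin.sum_univ_three]
      unfold fp
      simp only [Matrix.cons_val_zero, Matrix.cons_val_one, Matrix.cons_val, pow_zero, mul_one,
        one_mul, pow_one, C_neg, map_one]
  | succ m ih =>
    intro G hG δ hGδ
    set g := MvPolynomial.finSuccEquiv k (m + 3) G with hg
    have hg0 : g ≠ 0 := by
      rw [hg]
      exact (map_ne_zero_iff _ (MvPolynomial.finSuccEquiv k (m + 3)).injective).2 hG
    obtain ⟨j, hj⟩ : ∃ j, g.coeff j ≠ 0 := by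
      by_contra hc
      push Not at hc
      exact hg0 (Polynomial.ext fun j => by rw [hc j, coeff_zero])
    have hjδ : j ≤ δ := by
      have h1 : j ≤ g.natDegree := le_natDegree_of_ne_zero hj
      rw [hg, MvPolynomial.natDegree_finSuccEquiv] at h1
      exact h1.trans ((MvPolynomial.degreeOf_le_totalDegree G 0).trans (hGδ.totalDegree_le))
    have hjh : (g.coeff j).IsHomogeneous (δ - j) :=
      hGδ.finSuccEquiv_coeff_isHomogeneous j (δ - j) (by omega)
    obtain ⟨α, β, c, R, hc, hR1, hR, ⟨l₀, hl₀⟩, hGne⟩ := ih (g.coeff j) hj (δ - j) hjh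
    -- the polynomial in the new variable
    set Q : (k[X])[X] := g.map (MvPolynomial.aeval
      (fun l => C ((c l : ℤ) : k) * fp (A := k) (n := m + 2) α β l) :
      MvPolynomial (Fin (m + 3)) k →ₐ[k] k[X]) with hQ
    have hQ0 : Q ≠ 0 := by
      intro h
      apply hGne
      have h1 := congrArg (fun p => coeff p j) h
      rw [hQ] at h1
      simpa [coeff_map] using h1
    have hR1k : ((-R.eval 1 : ℤ) : k) ≠ 0 := Int.cast_ne_zero.2 (neg_ne_zero.2 hR1)
    have hinj : Function.Injective fun w : ℕ =>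
        (C ((-R.eval 1 : ℤ) : k) * (X ^ w * (X - 1) ^ (m + 3)) : k[X]) := by
      intro w w' h
      have h0 := mul_left_cancel₀ (C_ne_zero.2 hR1k) h
      have h1 : (X - 1 : k[X]) ^ (m + 3) ≠ 0 := pow_ne_zero _ (X_sub_C_ne_zero (1 : k))
      have h2 := mul_right_cancel₀ h1 h0
      have h3 := congrArg natDegree h2
      rwa [natDegree_X_pow, natDegree_X_pow] at h3
    -- the bad exponents
    have hfin : {w : ℕ | (C ((-R.eval 1 : ℤ) : k) * (X ^ w * (X - 1) ^ (m + 3)) : k[X]) ∈
        Q.roots.toFinset}.Finite :=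
      (Q.roots.toFinset.finite_toSet).preimage hinj.injOn
    have hfin2 : {w : ℕ | eval 1 (derivative R) = R.eval 1 * (w : ℤ)}.Finite := by
      refine Set.Subsingleton.finite fun w hw w' hw' => ?_
      have h1 : R.eval 1 * (w : ℤ) = R.eval 1 * (w' : ℤ) := by rw [← hw, ← hw']
      exact_mod_cast mul_left_cancel₀ hR1 h1
    obtain ⟨w, hw⟩ := Infinite.exists_notMem_finset (hfin.union hfin2).toFinset
    rw [Set.Finite.mem_toFinset, Set.mem_union, not_or] at hw
    -- divisibility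
    obtain ⟨R', hR'⟩ : (X - C 1) ∣ R - C (R.eval 1) * X ^ w := by
      rw [dvd_iff_isRoot]
      simp [IsRoot]
    rw [map_one] at hR'
    refine ⟨Fin.cons w α, Fin.cons (m + 3) β, Fin.cons (-R.eval 1) c, R', ?_, ?_, ?_,
      ⟨l₀.succ, by simpa using hl₀⟩, ?_⟩
    · intro l
      refine Fin.cases ?_ (fun l => ?_) l
      · simpa using hR1
      · simpa using hc l
    · intro h
      apply hw.2
      have h1 := congrArg (fun p => eval 1 (derivative p)) hR'
      simp only [derivative_sub, derivative_mul, derivative_C, zero_mul, derivative_X_pow,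
        eval_sub, eval_add, eval_mul, eval_C, eval_pow, eval_X, one_pow, derivative_X, derivative_one,
        mul_one, zero_add, sub_self, sub_zero, eval_one, one_mul, add_zero, h, eval_natCast,
        map_natCast] at h1
      show eval 1 (derivative R) = R.eval 1 * (w : ℤ)
      linarith
    · rw [Fin.sum_univ_succ]
      have h1 : ∀ l : Fin (m + 3), C ((Fin.cons (-R.eval 1) c : Fin (m + 4) → ℤ) l.succ) *
          fp (n := m + 3) (Fin.cons w α) (Fin.cons (m + 3) β) l.succ =
          C (c l) * fp (n := m + 2) α β l := by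
        intro l
        unfold fp
        rw [Fin.cons_succ, Fin.cons_succ, Fin.cons_succ]
      rw [Finset.sum_congr rfl fun l _ => h1 l, hR]
      unfold fp
      rw [Fin.cons_zero, Fin.cons_zero, Fin.cons_zero]
      have h2 : (X - 1 : ℤ[X]) ^ (m + 1 + 3) * R' = (X - 1) ^ (m + 3) * ((X - 1) * R') := by ring
      rw [h2, ← hR', C_neg]
      ring
    · have h1 : (fun l => C (((Fin.cons (-R.eval 1) c : Fin (m + 4) → ℤ) l : ℤ) : k) *
          fp (A := k) (n := m + 3) (Fin.cons w α) (Fin.cons (m + 3) β) l) =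
          Fin.cons (C ((-R.eval 1 : ℤ) : k) * (X ^ w * (X - 1) ^ (m + 3)))
            (fun l => C ((c l : ℤ) : k) * fp (A := k) (n := m + 2) α β l) := by
        funext l
        refine Fin.cases ?_ (fun l => ?_) l
        · rfl
        · rfl
      show MvPolynomial.aeval (fun l => C (((Fin.cons (-R.eval 1) c : Fin (m + 4) → ℤ) l : ℤ) : k) *
          fp (A := k) (n := m + 3) (Fin.cons w α) (Fin.cons (m + 3) β) l) G ≠ 0
      rw [h1, ← succ_eval G, ← hg, ← hQ]
      intro h
      exact hw.1 (by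
        show _ ∈ Q.roots.toFinset
        rw [Multiset.mem_toFinset, mem_roots hQ0]
        exact h)

end Pool.Agent.K4H7.EZ
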