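import Pool.Agent.K4H7.EZ.A2
import Pool.Agent.Y733.VR.Ht

set_option autoImplicit false
set_option maxHeartbeats 400000

/-!
Units `s` such that `s - 1` is a unit outside `S`, in fields with a small discriminant: general
lemmas.
-/

namespace Pool.Agent.K4H7.EZ

open NumberField IsDedekindDomain Height Real Polynomial Module
open Pool.Agent.K4H7.ET (SU)
open Pool.Agent.Y733.VR

lemma unit_abs {L : Type} [Field L] [NumberField L] (β : 𝓞 L) (hβ : IsUnit β)
    (w : HeightOneSpectrum (𝓞 L)) : FinitePlace.mk w (β : L) = 1 := by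
  rw [FinitePlace.mk_apply]
  exact (FinitePlace.norm_eq_one_iff_notMem L w β).2 fun h =>
    w.isPrime.ne_top (Ideal.eq_top_of_isUnit_mem _ h hβ)

lemma su_of_unit {L : Type} [Field L] [NumberField L] (T : Finset (HeightOneSpectrum (𝓞 L)))
    (β : 𝓞 L) (hβ : IsUnit β) : SU T (β : L) :=
  ⟨fun h => hβ.ne_zero (by
    have : (β : L) = ((0 : 𝓞 L) : L) := by rw [h]; simp
    exact RingOfIntegers.ext this), fun v _ => unit_abs β hβ v⟩

lemma ext_abs {k L : Type} [Field k] [NumberField k] [Field L] [NumberField L] [Algebra k L]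
    (S : Finset (HeightOneSpectrum (𝓞 k))) (ξ : 𝓞 k) (hξ : ∀ v, v ∉ S → ξ ∉ v.asIdeal)
    (w : HeightOneSpectrum (𝓞 L)) (hw : ¬ ∃ v ∈ S, w.asIdeal.LiesOver v.asIdeal) :
    FinitePlace.mk w (algebraMap k L (ξ : k)) = 1 := by
  have h1 : algebraMap k L (ξ : k) = ((algebraMap (𝓞 k) (𝓞 L) ξ : 𝓞 L) : L) := rfl
  rw [h1, FinitePlace.mk_apply]
  refine (FinitePlace.norm_eq_one_iff_notMem L w _).2 fun h => ?_
  set v : HeightOneSpectrum (𝓞 k) := HeightOneSpectrum.under (𝓞 k) w with hv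
  have hvS : v ∉ S := fun hS => hw ⟨v, hS, ⟨rfl⟩⟩
  exact hξ v hvS h

lemma exists_root_field {k : Type} [Field k] [NumberField k] (f : (𝓞 k)[X]) (hf : f.Monic)
    (hd : 0 < f.natDegree) :
    ∃ (L : Type) (_ : Field L) (_ : NumberField L) (_ : Algebra k L),
      finrank k L ≤ f.natDegree ∧
      ∃ β : 𝓞 L, aeval β f = 0 ∧ IntermediateField.adjoin k {(β : L)} = ⊤ := by
  set g : k[X] := f.map (algebraMap (𝓞 k) k) with hg
  have hgmon : g.Monic := hf.map _
  have hgdeg : g.natDegree = f.natDegree := by rw [hg, hf.natDegree_map]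
  obtain ⟨p, hp, hpg⟩ := exists_irreducible_of_natDegree_pos (f := g) (by omega)
  have : Fact (Irreducible p) := ⟨hp⟩
  have : Module.Finite k (AdjoinRoot p) := (AdjoinRoot.powerBasis hp.ne_zero).finite
  have : NumberField (AdjoinRoot p) := NumberField.of_module_finite k (AdjoinRoot p)
  have hrank : finrank k (AdjoinRoot p) ≤ f.natDegree := by
    rw [(AdjoinRoot.powerBasis hp.ne_zero).finrank, AdjoinRoot.powerBasis_dim, ← hgdeg]
    exact natDegree_le_of_dvd hpg hgmon.ne_zero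
  have hroot : aeval (AdjoinRoot.root p) g = 0 := by
    obtain ⟨c, hc⟩ := hpg
    rw [hc, map_mul, AdjoinRoot.aeval_eq, AdjoinRoot.mk_self, zero_mul]
  have hroot' : aeval (AdjoinRoot.root p) f = 0 := by
    rw [hg, aeval_map_algebraMap] at hroot
    exact hroot
  have hint : IsIntegral ℤ (AdjoinRoot.root p) := by
    have h1 : IsIntegral (𝓞 k) (AdjoinRoot.root p) := ⟨f, hf, by rw [← aeval_def]; exact hroot'⟩
    exact isIntegral_trans (R := ℤ) (A := 𝓞 k) _ h1
  refine ⟨AdjoinRoot p, inferInstance, inferInstance, inferInstance, hrank,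
    ⟨AdjoinRoot.root p, hint⟩, ?_, ?_⟩
  · apply RingOfIntegers.coe_injective
    rw [map_zero]
    set β : 𝓞 (AdjoinRoot p) := ⟨AdjoinRoot.root p, hint⟩ with hβ
    have h1 : algebraMap (𝓞 (AdjoinRoot p)) (AdjoinRoot p) (aeval β f) =
        aeval (algebraMap (𝓞 (AdjoinRoot p)) (AdjoinRoot p) β) f :=
      (aeval_algebraMap_apply _ _ _).symm
    exact h1.trans hroot'
  · exact IntermediateField.adjoin_eq_top_of_algebra k _ AdjoinRoot.adjoinRoot_eq_top

/-- the height of an algebraic integer which is not a root of unity -/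
lemma hh_pos {k : Type} [Field k] [NumberField k] (ξ : 𝓞 k) (h0 : ξ ≠ 0)
    (hξ : ∀ n : ℕ, 0 < n → ξ ^ n ≠ 1) : 0 < hh (ξ : k) := by
  refine lt_of_le_of_ne (hh_nonneg _) fun h => ?_
  have h1 := inf_eq (ξ : k) ξ.2
  rw [← h, div_eq_zero_iff] at h1
  have h2 : ∑ v : InfinitePlace k, (v.mult : ℝ) * log⁺ (v (ξ : k)) = 0 :=
    h1.resolve_right deg_pos.ne'
  rw [Finset.sum_eq_zero_iff_of_nonneg fun v _ => mul_nonneg (Nat.cast_nonneg _) posLog_nonneg] at h2
  have h3 : ∀ v : InfinitePlace k, v (ξ : k) ≤ 1 := by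
    intro v
    have h4 := (mul_eq_zero.1 (h2 v (Finset.mem_univ v))).resolve_left
      (Nat.cast_ne_zero.2 v.mult_pos.ne')
    rwa [posLog_eq_zero_iff, abs_of_nonneg (apply_nonneg v _)] at h4
  obtain ⟨n, hn, h4⟩ := Embeddings.pow_eq_one_of_norm_le_one k ℂ (x := (ξ : k))
    (by simpa using h0) ξ.2 (fun φ => h3 (InfinitePlace.mk φ))
  exact hξ n hn (RingOfIntegers.ext (by simpa using h4))

/-- units of large height outside `S` -/
lemma exists_xi {k : Type} [Field k] [NumberField k] (S : Finset (HeightOneSpectrum (𝓞 k)))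
    (hS : 2 ≤ Fintype.card (InfinitePlace k) + S.card) (B : ℝ) :
    ∃ ξ : 𝓞 k, ξ ≠ 0 ∧ (∀ v, v ∉ S → ξ ∉ v.asIdeal) ∧ B ≤ hh (ξ : k) := by
  classical
  obtain ⟨ξ, h0, h1, h2⟩ : ∃ ξ : 𝓞 k, ξ ≠ 0 ∧ (∀ v, v ∉ S → ξ ∉ v.asIdeal) ∧
      ∀ n : ℕ, 0 < n → ξ ^ n ≠ 1 := by
    rcases S.eq_empty_or_nonempty with hSe | ⟨v, hv⟩
    · rw [hSe, Finset.card_empty] at hS
      have hr : 0 < Units.rank k := by
        unfold Units.rank
        omega
      set i : Fin (Units.rank k) := ⟨0, hr⟩ with hi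
      refine ⟨(Units.fundSystem k i : 𝓞 k), (Units.fundSystem k i).ne_zero, fun v _ h =>
        v.isPrime.ne_top (Ideal.eq_top_of_isUnit_mem _ h (Units.fundSystem k i).isUnit),
        fun n hn h => ?_⟩
      have h3 : Units.fundSystem k i ∈ Units.torsion k := by
        rw [Units.torsion, CommGroup.mem_torsion, isOfFinOrder_iff_pow_eq_one]
        exact ⟨n, hn, Units.ext (by rw [Units.val_pow_eq_pow_val, h, Units.val_one])⟩
      have h4 := Units.logEmbedding_fundSystem k i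
      rw [(Units.dirichletUnitTheorem.logEmbedding_eq_zero_iff (K := k)).2 h3] at h4
      exact (Units.basisUnitLattice k).ne_zero i (Subtype.ext h4.symm)
    · obtain ⟨a, ha0, ha1, ha2⟩ := Pool.Agent.K4H7.ET.exists_gen v
      refine ⟨a, ha0, fun v' hv' => ha2 v' fun h => hv' (h ▸ hv), fun n hn h => ?_⟩
      have h3 : (1 : 𝓞 k) ∈ v.asIdeal := by
        rw [← h]
        exact Ideal.pow_mem_of_mem _ ha1 n hn
      exact v.isPrime.ne_top ((Ideal.eq_top_iff_one _).2 h3)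
  have hpos := hh_pos ξ h0 h2
  obtain ⟨m, hm⟩ := exists_nat_gt (B / hh (ξ : k))
  refine ⟨ξ ^ m, pow_ne_zero _ h0, fun v hv h => h1 v hv (v.isPrime.mem_of_pow_mem _ h), ?_⟩
  rw [div_lt_iff₀ hpos] at hm
  have h3 : ((ξ ^ m : 𝓞 k) : k) = (ξ : k) ^ m := by simp
  rw [h3, hh_pow]
  exact hm.le

end Pool.Agent.K4H7.EZ
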