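import Pool.Agent.K4H7.EZ.A6

set_option autoImplicit false
set_option maxHeartbeats 400000

/-!
Units `s` such that `s - 1` is a unit outside `S`, in fields with a small discriminant.
-/

namespace Pool.Agent.K4H7.EZ

open NumberField IsDedekindDomain Height Real Polynomial Module
open Pool.Agent.K4H7.ET (SU)
open Pool.Agent.Y733.VR

/-- in fields of degree at most `r` there are units `s` of a large height such that `s - 1` is a unit
outside `S` and the logarithmic discriminant is at most `μ` times the height of `s` -/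
def Good {k : Type} [Field k] [NumberField k] (S : Finset (HeightOneSpectrum (𝓞 k))) (r : ℕ)
    (μ : ℝ) : Prop :=
  ∃ C₀ : ℝ, ∀ B : ℝ, ∃ (L : Type) (_ : Field L) (_ : NumberField L) (_ : Algebra k L),
    finrank k L ≤ r ∧ ∃ s : L,
      (∀ T : Finset (HeightOneSpectrum (𝓞 L)),
        (∀ w : HeightOneSpectrum (𝓞 L), (∃ v ∈ S, w.asIdeal.LiesOver v.asIdeal) → w ∈ T) →
        SU T s ∧ SU T (s - 1)) ∧
      B ≤ hh s ∧ ld L ≤ ld k + μ * hh s + C₀

lemma ln_unit {L : Type} [Field L] [NumberField L] (β γ : 𝓞 L) (h : β * γ = 1) :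
    ln (β : L) = 0 := by
  have hβ : (β : L) ≠ 0 := by
    intro h1
    have h2 : β = 0 := RingOfIntegers.ext (by simpa using h1)
    rw [h2, zero_mul] at h
    exact zero_ne_one h
  have hγ : (γ : L) ≠ 0 := by
    intro h1
    have h2 : γ = 0 := RingOfIntegers.ext (by simpa using h1)
    rw [h2, mul_zero] at h
    exact zero_ne_one h
  have h1 := ln_mul (β : L) (γ : L) hβ hγ
  have h2 : (β : L) * (γ : L) = 1 := by
    have := congrArg (fun x : 𝓞 L => (x : L)) h
    simpa using this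
  rw [h2] at h1
  have h3 : ln (1 : L) = 0 := by
    have := ln_natCast (K := L) 1 one_ne_zero
    simpa using this
  have h4 := ln_nonneg (β : L) β.2 hβ
  have h5 := ln_nonneg (γ : L) γ.2 hγ
  linarith

/-- the quadratic case -/
theorem good_two {k : Type} [Field k] [NumberField k] (S : Finset (HeightOneSpectrum (𝓞 k)))
    (hS : 2 ≤ Fintype.card (InfinitePlace k) + S.card) (r : ℕ) (hr : 2 ≤ r) : Good S r 1 := by
  classical
  refine ⟨Real.log 2, fun B => ?_⟩
  obtain ⟨ξ, hξ0, hξS, hξB⟩ := exists_xi S hS (max B 1 + Real.log 2)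
  set f : (𝓞 k)[X] := X ^ 2 + (-(C ξ) * X + 1) with hf
  have hlow : (-(C ξ) * X + 1 : (𝓞 k)[X]).degree < 2 := by
    have : (-(C ξ) * X + 1 : (𝓞 k)[X]) = C (-ξ) * X + C 1 := by simp
    rw [this]
    exact lt_of_le_of_lt degree_linear_le (by norm_num)
  have hmon : f.Monic := monic_X_pow_add hlow
  have hdeg : f.natDegree = 2 := by
    refine natDegree_eq_of_degree_eq_some ?_
    rw [hf, degree_add_eq_left_of_degree_lt (by rwa [degree_X_pow]), degree_X_pow]
  obtain ⟨L, iF, iN, iA, hfin, β, hβ, htop⟩ := exists_root_field f hmon (by rw [hdeg]; norm_num)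
  refine ⟨L, iF, iN, iA, (hfin.trans hdeg.le).trans hr, ?_⟩
  set x : 𝓞 L := algebraMap (𝓞 k) (𝓞 L) ξ with hx
  have hxL : (x : L) = algebraMap k L (ξ : k) := rfl
  have h1 : β ^ 2 - x * β + 1 = 0 := by
    have h2 := hβ
    rw [hf] at h2
    simp only [map_add, map_mul, map_neg, map_pow, map_one, aeval_X, aeval_C] at h2
    rw [← hx] at h2
    linear_combination h2
  have hβu : β * (x - β) = 1 := by linear_combination -h1
  have hβU : IsUnit β := IsUnit.of_mul_eq_one _ hβu
  have h1L : (β : L) ^ 2 - x * β + 1 = 0 := by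
    have := congrArg (fun y : 𝓞 L => (y : L)) h1
    simpa using this
  have hβ0 : (β : L) ≠ 0 := by
    intro h
    rw [h] at h1L
    simp at h1L
  refine ⟨-(β : L) ^ 2, fun T hT => ⟨?_, ?_⟩, ?_, ?_⟩
  · have h2 := su_of_unit T (-β ^ 2) ((hβU.pow 2).neg)
    simpa using h2
  · have h2 : -(β : L) ^ 2 - 1 = -(algebraMap k L (ξ : k) * β) := by
      rw [← hxL]
      linear_combination -h1L
    rw [h2]
    refine ⟨neg_ne_zero.2 (mul_ne_zero ?_ hβ0), fun w hw => ?_⟩
    · rw [Ne, map_eq_zero]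
      simpa using hξ0
    · have h3 : FinitePlace.mk w (-(algebraMap k L (ξ : k) * (β : L))) =
          FinitePlace.mk w (algebraMap k L (ξ : k) * (β : L)) :=
        (FinitePlace.mk w).1.map_neg _
      rw [h3, map_mul, ext_abs S ξ hξS w (fun h => hw (hT w h)), unit_abs β hβU, one_mul]
  · -- the height
    have h2 : algebraMap k L (ξ : k) = β + (β : L)⁻¹ := by
      rw [← hxL]
      field_simp
      linear_combination -h1L
    have h3 := hh_add_le (β : L) (β : L)⁻¹
    rw [← h2, hh_ext, hh_inv] at h3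
    rw [hh_neg, hh_pow]
    have h4 := le_max_left B 1
    push_cast
    linarith
  · -- the discriminant
    have hd : derivative f = 2 * X - C ξ := by
      rw [hf]
      simp only [derivative_add, derivative_mul, derivative_neg, derivative_C, derivative_X,
        derivative_one, derivative_X_pow]
      norm_num
      rw [show (C 2 : (𝓞 k)[X]) = 2 from map_ofNat C 2]
      ring
    have hdβ : aeval β (derivative f) = 2 * β - x := by
      rw [hd, map_sub, map_mul, aeval_X, aeval_C, map_ofNat]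
    have hne : (2 * β - x : 𝓞 L) ≠ 0 := by
      intro h
      have h2 : (x : L) = 2 * β := by
        have h3 := congrArg (algebraMap (𝓞 L) L) h
        rw [map_sub, map_mul, map_zero, map_ofNat] at h3
        exact (sub_eq_zero.1 h3).symm
      have h3 : (β : L) ^ 2 = 1 := by
        rw [h2] at h1L
        linear_combination -h1L
      have h4 : hh (β : L) = 0 := by
        have h5 := hh_pow (β : L) 2
        rw [h3, hh_one] at h5
        push_cast at h5
        linarith
      have h5 := hh_add_le (β : L) (β : L)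
      have h6 : algebraMap k L (ξ : k) = (β : L) + β := by
        rw [← hxL, h2]
        ring
      rw [← h6, hh_ext, h4] at h5
      have h7 := le_max_right B 1
      linarith
    have h2 := ld_le k L β htop f hβ (by rw [hdβ]; exact hne)
    rw [hdβ] at h2
    have hneL : ((2 * β - x : 𝓞 L) : L) ≠ 0 := by
      intro h
      exact hne (RingOfIntegers.ext (by simpa using h))
    have h3 : Real.log |(Algebra.norm ℚ ((2 * β - x : 𝓞 L) : L) : ℝ)| / finrank ℚ L =
        ln ((2 * β - x : 𝓞 L) : L) := rfl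
    rw [h3] at h2
    have h4 : (β : L) * ((2 * β - x : 𝓞 L) : L) = (β : L) ^ 2 - 1 := by
      have h5 : ((2 * β - x : 𝓞 L) : L) = 2 * (β : L) - x := by
        show algebraMap (𝓞 L) L (2 * β - x) = _
        rw [map_sub, map_mul, map_ofNat]
      rw [h5]
      linear_combination h1L
    have h5 := ln_mul (β : L) _ hβ0 hneL
    rw [h4, ln_unit β (x - β) hβu, zero_add] at h5
    have h6 : (β : L) ^ 2 - 1 ≠ 0 := by
      rw [← h4]
      exact mul_ne_zero hβ0 hneL
    have h7 : ln ((β : L) ^ 2 - 1) ≤ hh ((β : L) ^ 2 - 1) := log_norm_le _ h6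
    have h8 := hh_sub_le ((β : L) ^ 2) 1
    rw [hh_one] at h8
    rw [hh_neg, one_mul]
    linarith

lemma hensel (N : ℕ) : ∃ a : ℕ, a % 7 = 6 ∧ 7 ^ (N + 1) ∣ a ^ 2 + 3 * a + 9 := by
  induction N with
  | zero => exact ⟨6, rfl, by norm_num⟩
  | succ N ih =>
    obtain ⟨a, ha, e, he⟩ := ih
    refine ⟨a + 7 ^ (N + 1) * (6 * e), ?_, ?_⟩
    · rw [pow_succ, mul_comm (7 ^ N) 7, mul_assoc, Nat.add_mul_mod_self_left, ha]
    · obtain ⟨b, hb⟩ : 7 ∣ 12 * a + 19 := by omega
      have h1 : (a + 7 ^ (N + 1) * (6 * e)) ^ 2 + 3 * (a + 7 ^ (N + 1) * (6 * e)) + 9 =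
          7 ^ (N + 1 + 1) * (e * b + 7 ^ N * (36 * e ^ 2)) := by
        have h2 : (a + 7 ^ (N + 1) * (6 * e)) ^ 2 + 3 * (a + 7 ^ (N + 1) * (6 * e)) + 9 =
            (a ^ 2 + 3 * a + 9) + 7 ^ (N + 1) * (6 * e * (2 * a + 3)) +
              7 ^ (N + 1) * 7 ^ (N + 1) * (36 * e ^ 2) := by ring
        rw [h2, he]
        have h3 : 7 ^ (N + 1) * e + 7 ^ (N + 1) * (6 * e * (2 * a + 3)) =
            7 ^ (N + 1) * (e * (12 * a + 19)) := by ring
        rw [h3, hb]
        ring
      rw [h1]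
      exact Dvd.intro _ rfl

lemma exists_agm (B : ℕ) : ∃ a g m : ℕ, B ≤ a ∧ 0 < a ∧ 0 < g ∧ a ≤ g ^ 3 ∧
    a ^ 2 + 3 * a + 9 = g ^ 3 * m := by
  obtain ⟨j, hj⟩ : ∃ j : ℕ, j = B ^ 2 + 5 * B + 13 := ⟨_, rfl⟩
  obtain ⟨a, -, ha⟩ := hensel (3 * j - 1)
  have h3j : 3 * j - 1 + 1 = 3 * j := by omega
  rw [h3j] at ha
  obtain ⟨M, hM⟩ : ∃ M : ℕ, M = 7 ^ (3 * j) := ⟨_, rfl⟩
  rw [← hM] at ha
  have hMpos : 0 < M := by rw [hM]; exact pow_pos (by norm_num) _
  have hMj : j < M := by
    have h1 : 3 * j < 7 ^ (3 * j) := Nat.lt_pow_self (by norm_num)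
    rw [← hM] at h1
    omega
  have hdvd : M ∣ (a % M) ^ 2 + 3 * (a % M) + 9 := by
    have h1 : (a % M) ^ 2 + 3 * (a % M) + 9 ≡ a ^ 2 + 3 * a + 9 [MOD M] :=
      (((Nat.mod_modEq a M).pow 2).add ((Nat.mod_modEq a M).mul_left 3)).add_right 9
    exact (h1.dvd_iff dvd_rfl).2 ha
  obtain ⟨m, hm⟩ := hdvd
  have hlarge : B + 1 ≤ a % M := by
    by_contra hc
    push Not at hc
    have h1 : a % M ≤ B := by omega
    have h2 : (a % M) ^ 2 + 3 * (a % M) + 9 ≤ B ^ 2 + 3 * B + 9 := by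
      have := Nat.pow_le_pow_left h1 2
      omega
    have h3 : M ≤ (a % M) ^ 2 + 3 * (a % M) + 9 :=
      Nat.le_of_dvd (by positivity) ⟨m, hm⟩
    omega
  refine ⟨a % M, 7 ^ j, m, by omega, by omega, pow_pos (by norm_num) _, ?_, ?_⟩
  · rw [← pow_mul, mul_comm j 3, ← hM]
    exact (Nat.mod_lt a hMpos).le
  · rw [hm, ← pow_mul, mul_comm j 3, ← hM]

lemma ln_quad {L : Type} [Field L] [NumberField L] (t : L) (h : t ^ 2 + t + 1 ≠ 0) :
    ln (t ^ 2 + t + 1) ≤ 2 * hh t + Real.log 3 := by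
  have h1 : ln (t ^ 2 + t + 1) =
      (∑ v : InfinitePlace L, (v.mult : ℝ) * Real.log (v (t ^ 2 + t + 1))) / finrank ℚ L := by
    unfold ln
    have h2 := InfinitePlace.prod_eq_abs_norm (t ^ 2 + t + 1)
    have h3 : |(Algebra.norm ℚ (t ^ 2 + t + 1) : ℝ)| =
        ((|Algebra.norm ℚ (t ^ 2 + t + 1)| : ℚ) : ℝ) := by push_cast; rfl
    rw [h3, ← h2, Real.log_prod fun v _ => pow_ne_zero _ (v.pos_iff.2 h).ne']
    congr 1
    exact Finset.sum_congr rfl fun v _ => Real.log_pow _ _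
  have h2 : ∀ v : InfinitePlace L, Real.log (v (t ^ 2 + t + 1)) ≤ 2 * log⁺ (v t) + Real.log 3 := by
    intro v
    set M : ℝ := max 1 (v t) with hM
    have hM1 : 1 ≤ M := le_max_left _ _
    have hM2 : v t ≤ M := le_max_right _ _
    have h3 : v (t ^ 2 + t + 1) ≤ 3 * M ^ 2 := by
      have h4 : v.1 (t ^ 2 + t + 1) ≤ v.1 t ^ 2 + v.1 t + 1 := by
        refine (v.1.add_le _ _).trans ?_
        rw [map_one]
        refine add_le_add ((v.1.add_le _ _).trans ?_) le_rfl
        rw [map_pow]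
      have h5 : v.1 t = v t := rfl
      have h6 : v.1 (t ^ 2 + t + 1) = v (t ^ 2 + t + 1) := rfl
      rw [h5, h6] at h4
      have h7 : v t ^ 2 ≤ M ^ 2 := pow_le_pow_left₀ (apply_nonneg v t) hM2 2
      nlinarith
    have h4 := Real.log_le_log (v.pos_iff.2 h) h3
    rw [Real.log_mul (by norm_num) (by positivity), Real.log_pow] at h4
    rw [posLog_eq_log_max_one (apply_nonneg v t)]
    push_cast at h4
    linarith
  have h3 : ∑ v : InfinitePlace L, (v.mult : ℝ) * Real.log (v (t ^ 2 + t + 1)) ≤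
      2 * ∑ v : InfinitePlace L, (v.mult : ℝ) * log⁺ (v t) + finrank ℚ L * Real.log 3 := by
    have h4 : (finrank ℚ L : ℝ) = ∑ v : InfinitePlace L, (v.mult : ℝ) := by
      rw [← totalWeight_eq_finrank, totalWeight_eq_sum_mult]
      push_cast
      rfl
    rw [h4, Finset.mul_sum, Finset.sum_mul, ← Finset.sum_add_distrib]
    refine Finset.sum_le_sum fun v _ => ?_
    have h5 := mul_le_mul_of_nonneg_left (h2 v) (Nat.cast_nonneg (α := ℝ) v.mult)
    linarith
  have h4 := inf_le t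
  rw [div_le_iff₀ deg_pos] at h4
  rw [h1, div_le_iff₀ deg_pos]
  linarith

/-- the cubic case -/
theorem good_three {k : Type} [Field k] [NumberField k] (S : Finset (HeightOneSpectrum (𝓞 k)))
    (r : ℕ) (hr : 3 ≤ r) : Good S r 2 := by
  classical
  refine ⟨Real.log 9 + Real.log 3 + Real.log 13, fun B => ?_⟩
  obtain ⟨N, hN⟩ := exists_nat_gt (Real.exp (3 * B + 3 / 2 * Real.log 3))
  obtain ⟨a, g, m, haN, ha0, hg0, hag, hagm⟩ := exists_agm N
  set f : (𝓞 k)[X] := X ^ 3 +
    (C (-(3 * g * m : 𝓞 k)) * X + C (-((2 * a + 3) * m : 𝓞 k))) with hf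
  have hlow : (C (-(3 * g * m : 𝓞 k)) * X + C (-((2 * a + 3) * m : 𝓞 k)) : (𝓞 k)[X]).degree < 3 :=
    lt_of_le_of_lt degree_linear_le (by norm_num)
  have hmon : f.Monic := monic_X_pow_add hlow
  have hdeg : f.natDegree = 3 := by
    refine natDegree_eq_of_degree_eq_some ?_
    rw [hf, degree_add_eq_left_of_degree_lt (by rwa [degree_X_pow]), degree_X_pow]
  obtain ⟨L, iF, iN, iA, hfin, γ, hγ, htop⟩ := exists_root_field f hmon (by rw [hdeg]; norm_num)
  refine ⟨L, iF, iN, iA, (hfin.trans hdeg.le).trans hr, ?_⟩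
  have h1 : γ ^ 3 - 3 * g * m * γ - (2 * a + 3) * m = 0 := by
    have h2 := hγ
    rw [hf] at h2
    simp only [map_add, map_mul, map_neg, map_pow, aeval_X, map_natCast,
      map_ofNat] at h2
    linear_combination h2
  have h1L : (γ : L) ^ 3 - 3 * g * m * γ - (2 * a + 3) * m = 0 := by
    have := congrArg (algebraMap (𝓞 L) L) h1
    simpa only [map_sub, map_mul, map_pow, map_add, map_natCast, map_ofNat, map_zero] using this
  have hA : (a : L) ^ 2 + 3 * a + 9 = g ^ 3 * m := by exact_mod_cast congrArg (Nat.cast (R := L)) hagm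
  set tL : L := (g * γ + a) / 3 with htL
  have hgt : (g : L) * γ = 3 * tL - a := by
    rw [htL]
    ring
  have hF : tL ^ 3 - a * tL ^ 2 - (a + 3) * tL - 1 = 0 := by
    have h2 : 27 * (tL ^ 3 - a * tL ^ 2 - (a + 3) * tL - 1) = 0 := by
      rw [htL]
      linear_combination (g : L) ^ 3 * h1L - (3 * g * γ + (2 * a + 3)) * hA
    exact (mul_eq_zero.1 h2).resolve_left (by norm_num)
  have hint : IsIntegral ℤ tL := by
    refine ⟨X ^ 3 + (C (-(a : ℤ)) * X ^ 2 + C (-((a : ℤ) + 3)) * X + C (-1)),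
      monic_X_pow_add degree_quadratic_lt, ?_⟩
    simp only [eval₂_add, eval₂_mul, eval₂_pow, eval₂_X, eval₂_C]
    simp only [map_neg, map_add, map_natCast, map_ofNat, map_one]
    linear_combination hF
  set t : 𝓞 L := ⟨tL, hint⟩ with ht
  have htc : (t : L) = tL := rfl
  have hFt : t ^ 3 - a * t ^ 2 - (a + 3) * t - 1 = 0 := by
    apply RingOfIntegers.coe_injective
    rw [map_zero]
    simp only [map_sub, map_mul, map_pow, map_add, map_natCast, map_ofNat, map_one]
    exact hF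
  have hu1 : t * (t ^ 2 - a * t - (a + 3)) = 1 := by linear_combination hFt
  have hu2 : (t + 1) * -(t ^ 2 - (a + 1) * t - 2) = 1 := by linear_combination -hFt
  have hU1 : IsUnit t := IsUnit.of_mul_eq_one _ hu1
  have hU2 : IsUnit (t + 1) := IsUnit.of_mul_eq_one _ hu2
  have ht0 : tL ≠ 0 := by
    intro h
    rw [h] at hF
    simp at hF
  have ht1 : tL + 1 ≠ 0 := by
    intro h
    have h2 : tL = -1 := eq_neg_of_add_eq_zero_left h
    rw [h2] at hF
    have h3 : (1 : L) = 0 := by linear_combination hF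
    exact one_ne_zero h3
  have hlnt : ln tL = 0 := ln_unit t _ hu1
  have hlnt1 : ln (tL + 1) = 0 := by
    have h2 := ln_unit (t + 1) _ hu2
    have h3 : ((t + 1 : 𝓞 L) : L) = tL + 1 := by
      show algebraMap (𝓞 L) L (t + 1) = _
      rw [map_add, map_one]
      rfl
    rwa [h3] at h2
  -- the key identities
  set Q : L := tL ^ 2 + tL + 1 with hQ
  have hQ3 : Q ^ 3 = ((a ^ 2 + 3 * a + 9 : ℕ) : L) * (tL * (tL + 1)) ^ 2 := by
    push_cast
    rw [hQ]
    linear_combination ((tL ^ 3 - 3 * tL - 1) + a * (tL ^ 2 + tL) + 3 * (tL ^ 2 + tL)) * hF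
  have hQD : (g : L) ^ 2 * (3 * (γ : L) ^ 2 - 3 * g * m) * (tL * (tL + 1)) = 9 * Q ^ 2 := by
    rw [hQ]
    linear_combination (3 * (g * (γ : L) + (3 * tL - a)) * (tL ^ 2 + tL)) * hgt +
      9 * (2 * tL + 1) * hF - 3 * (tL ^ 2 + tL) * (-hA)
  have hA0 : (a ^ 2 + 3 * a + 9 : ℕ) ≠ 0 := by positivity
  have hQ0 : Q ≠ 0 := by
    intro h
    rw [h, zero_pow three_ne_zero] at hQ3
    exact mul_ne_zero (Nat.cast_ne_zero.2 hA0) (pow_ne_zero 2 (mul_ne_zero ht0 ht1)) hQ3.symm
  have hlnV : ln (tL * (tL + 1)) = 0 := by rw [ln_mul _ _ ht0 ht1, hlnt, hlnt1, add_zero]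
  have hlnQ : 3 * ln Q = Real.log ((a ^ 2 + 3 * a + 9 : ℕ) : ℝ) := by
    have h2 : ln (Q ^ 3) = 3 * ln Q := by
      rw [pow_succ, pow_two, ln_mul _ _ (mul_ne_zero hQ0 hQ0) hQ0, ln_mul _ _ hQ0 hQ0]
      ring
    rw [← h2, hQ3, ln_mul _ _ (Nat.cast_ne_zero.2 hA0) (pow_ne_zero 2 (mul_ne_zero ht0 ht1)),
      ln_natCast _ hA0, pow_two (tL * (tL + 1)),
      ln_mul _ _ (mul_ne_zero ht0 ht1) (mul_ne_zero ht0 ht1), hlnV, add_zero, add_zero]
  have hquad := ln_quad tL hQ0
  rw [← hQ] at hquad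
  -- sizes
  have haR : (1 : ℝ) ≤ a := by exact_mod_cast ha0
  have hloga : 0 ≤ Real.log a := Real.log_nonneg haR
  have hlogA1 : 2 * Real.log a ≤ Real.log ((a ^ 2 + 3 * a + 9 : ℕ) : ℝ) := by
    have h2 : (2 : ℝ) * Real.log a = Real.log ((a : ℝ) ^ 2) := by rw [Real.log_pow]; norm_num
    rw [h2]
    refine Real.log_le_log (by positivity) ?_
    push_cast
    nlinarith
  have hlogA2 : Real.log ((a ^ 2 + 3 * a + 9 : ℕ) : ℝ) ≤ Real.log 13 + 2 * Real.log a := by
    have h2 : Real.log 13 + 2 * Real.log a = Real.log (13 * (a : ℝ) ^ 2) := by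
      rw [Real.log_mul (by norm_num) (by positivity), Real.log_pow]
      norm_num
    rw [h2]
    refine Real.log_le_log (by positivity) ?_
    push_cast
    nlinarith
  have hlogg : Real.log a ≤ 3 * Real.log g := by
    have h2 : (3 : ℝ) * Real.log g = Real.log ((g : ℝ) ^ 3) := by rw [Real.log_pow]; norm_num
    rw [h2]
    exact Real.log_le_log (by linarith) (by exact_mod_cast hag)
  refine ⟨-tL, fun T hT => ⟨?_, ?_⟩, ?_, ?_⟩
  · have h2 := su_of_unit T (-t) hU1.neg
    have h3 : ((-t : 𝓞 L) : L) = -tL := by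
      show algebraMap (𝓞 L) L (-t) = _
      rw [map_neg]
      rfl
    rwa [h3] at h2
  · have h2 := su_of_unit T (-(t + 1)) hU2.neg
    have h3 : ((-(t + 1) : 𝓞 L) : L) = -tL - 1 := by
      show algebraMap (𝓞 L) L (-(t + 1)) = _
      rw [map_neg, map_add, map_one]
      show -(tL + 1) = _
      ring
    rwa [h3] at h2
  · rw [hh_neg]
    have h2 : 3 * B + 3 / 2 * Real.log 3 < Real.log a := by
      rw [Real.lt_log_iff_exp_lt (by linarith)]
      have : (N : ℝ) ≤ a := by exact_mod_cast haN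
      linarith
    linarith
  · have hd : derivative f = 3 * X ^ 2 - C (3 * g * m : 𝓞 k) := by
      rw [hf, derivative_add, derivative_add, derivative_X_pow, derivative_C_mul, derivative_X,
        derivative_C, mul_one, add_zero, C_neg, ← sub_eq_add_neg]
      congr 1
    have hdγ : aeval γ (derivative f) = 3 * γ ^ 2 - 3 * g * m := by
      rw [hd]
      simp only [map_sub, map_mul, map_pow, aeval_X, map_ofNat, map_natCast]
    have hD0 : (3 * (γ : L) ^ 2 - 3 * g * m) ≠ 0 := by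
      intro h
      rw [h, mul_zero, zero_mul] at hQD
      exact mul_ne_zero (by norm_num) (pow_ne_zero 2 hQ0) hQD.symm
    have hDc : ((3 * γ ^ 2 - 3 * g * m : 𝓞 L) : L) = 3 * (γ : L) ^ 2 - 3 * g * m := by
      show algebraMap (𝓞 L) L (3 * γ ^ 2 - 3 * g * m) = _
      simp only [map_sub, map_mul, map_pow, map_natCast, map_ofNat]
    have h2 := ld_le k L γ htop f hγ (by
      rw [hdγ]
      intro h
      apply hD0
      rw [← hDc, h]
      exact map_zero (algebraMap (𝓞 L) L))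
    rw [hdγ, hDc] at h2
    have h3 : Real.log |(Algebra.norm ℚ (3 * (γ : L) ^ 2 - 3 * g * m) : ℝ)| / finrank ℚ L =
        ln (3 * (γ : L) ^ 2 - 3 * g * m) := rfl
    rw [h3] at h2
    have hg1 : (g : L) ≠ 0 := Nat.cast_ne_zero.2 hg0.ne'
    have h4 : 2 * Real.log g + ln (3 * (γ : L) ^ 2 - 3 * g * m) = Real.log 9 + 2 * ln Q := by
      have h5 := congrArg ln hQD
      rw [ln_mul _ _ (mul_ne_zero (pow_ne_zero 2 hg1) hD0) (mul_ne_zero ht0 ht1), hlnV, add_zero,
        ln_mul _ _ (pow_ne_zero 2 hg1) hD0, pow_two (g : L), ln_mul _ _ hg1 hg1,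
        ln_natCast _ hg0.ne'] at h5
      have h6 : ln ((9 : L) * Q ^ 2) = Real.log 9 + 2 * ln Q := by
        have h7 : (9 : L) = ((9 : ℕ) : L) := by norm_num
        rw [h7, ln_mul _ _ (by norm_num) (pow_ne_zero 2 hQ0), ln_natCast _ (by norm_num),
          pow_two Q, ln_mul _ _ hQ0 hQ0]
        push_cast
        ring
      rw [h6] at h5
      linarith
    have hlog13 : 0 ≤ Real.log 13 := Real.log_nonneg (by norm_num)
    rw [hh_neg]
    linarith

end Pool.Agent.K4H7.EZ
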