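import Pool.Agent.K4H7.EZ.A1
import Pool.Agent.K4H7.EZ.A4
import Pool.Agent.K4H7.EZ.A5
import Pool.Agent.K4H7.EZ.A7
import Pool.Agent.K4H7.ET.X5

set_option autoImplicit false
set_option maxHeartbeats 400000

/-!
Algebraic lemmas for the final step.
-/

namespace Pool.Agent.K4H7.EZ

open NumberField IsDedekindDomain Height Real Polynomial Module
open Pool.Agent.K4H7.ET (SU Sm nm vl val)
open Pool.Agent.Y733.VR

lemma abv_root {L : Type} [Field L] (f : AbsoluteValue L ℝ) (s : L) (n : ℕ) (b : Fin (n + 1) → L)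
    (h : s ^ (n + 1) = ∑ i, b i * s ^ (i : ℕ)) : log⁺ (f s) ≤ log (1 + ∑ i, f (b i)) := by
  have h0 : 0 ≤ ∑ i, f (b i) := Finset.sum_nonneg fun i _ => f.nonneg _
  have h1 : max 1 (f s) ≤ 1 + ∑ i, f (b i) := by
    refine max_le (by linarith) ?_
    rcases le_or_gt (f s) 1 with h2 | h2
    · linarith
    · have h3 : f s ^ (n + 1) ≤ (∑ i, f (b i)) * f s ^ n := by
        rw [← map_pow, h, Finset.sum_mul]
        refine (f.sum_le _ _).trans (Finset.sum_le_sum fun i _ => ?_)
        rw [map_mul, map_pow]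
        exact mul_le_mul_of_nonneg_left
          (pow_le_pow_right₀ h2.le (Nat.lt_succ_iff.1 i.2)) (f.nonneg _)
      have h4 : 0 < f s ^ n := pow_pos (by linarith) n
      rw [pow_succ, mul_comm (f s ^ n)] at h3
      have := le_of_mul_le_mul_right h3 h4
      linarith
  rw [posLog_eq_log_max_one (f.nonneg s)]
  exact Real.log_le_log (lt_of_lt_of_le one_pos (le_max_left _ _)) h1

lemma root_bound {k : Type} [Field k] [NumberField k] (p : k[X]) (hp : p ≠ 0) (M : ℕ) :
    ∃ C : ℝ, ∀ (L : Type) [Field L] [NumberField L] [Algebra k L]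
      (T : Finset (HeightOneSpectrum (𝓞 L))) (s : L), SU T s → T.card ≤ finrank k L * M →
      aeval s p = 0 → logHeight₁ s ≤ finrank k L * C := by
  classical
  rcases Nat.eq_zero_or_pos p.natDegree with hd | hd
  · refine ⟨0, fun L _ _ _ T s _ _ h => ?_⟩
    exfalso
    rw [eq_C_of_natDegree_eq_zero hd, aeval_C, map_eq_zero] at h
    rw [eq_C_of_natDegree_eq_zero hd, h, C_0] at hp
    exact hp rfl
  · obtain ⟨n, hn⟩ : ∃ n, p.natDegree = n + 1 := ⟨p.natDegree - 1, by omega⟩
    set b : Fin (n + 1) → k := fun i => -(p.coeff i / p.leadingCoeff) with hb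
    refine ⟨(finrank ℚ k + M) * log (n + 2) + ∑ i, logHeight₁ (b i), ?_⟩
    intro L _ _ _ T s hs hT h
    have hlc : algebraMap k L p.leadingCoeff ≠ 0 := by
      rw [Ne, map_eq_zero]
      exact leadingCoeff_ne_zero.2 hp
    have h1 : s ^ (n + 1) = ∑ i : Fin (n + 1), algebraMap k L (b i) * s ^ (i : ℕ) := by
      have h2 := h
      rw [aeval_eq_sum_range, hn, Finset.sum_range_succ] at h2
      simp only [Algebra.smul_def] at h2
      rw [Finset.sum_range (f := fun i => algebraMap k L (p.coeff i) * s ^ i)] at h2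
      have h3 : ∑ i : Fin (n + 1), algebraMap k L (b i) * s ^ (i : ℕ) =
          -(algebraMap k L p.leadingCoeff)⁻¹ *
            ∑ i : Fin (n + 1), algebraMap k L (p.coeff i) * s ^ (i : ℕ) := by
        rw [Finset.mul_sum]
        refine Finset.sum_congr rfl fun i _ => ?_
        rw [hb]
        simp only [map_neg, map_div₀]
        field_simp
      rw [h3]
      have h4 : algebraMap k L (p.coeff (n + 1)) = algebraMap k L p.leadingCoeff := by
        rw [leadingCoeff, hn]
      rw [h4] at h2
      field_simp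
      linear_combination h2
    have h2 := Pool.Agent.K4H7.ET.Sm_mono T _ _ fun f =>
      abv_root f s n (fun i => algebraMap k L (b i)) h1
    rw [← su_ht hs] at h2
    have h3 := Sm_one_add T fun i : Fin (n + 1) => algebraMap k L (b i)
    have h4 : ∑ j, logHeight₁ (algebraMap k L (b j)) = finrank k L * ∑ i, logHeight₁ (b i) := by
      rw [Finset.mul_sum]
      exact Finset.sum_congr rfl fun i _ => logHeight₁_ext (b i)
    rw [h4] at h3
    have h5 : ((finrank ℚ L : ℝ) + T.card) * log (n + 2) ≤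
        finrank k L * ((finrank ℚ k + M) * log (n + 2)) := by
      rw [← mul_assoc]
      refine mul_le_mul_of_nonneg_right ?_ (Real.log_nonneg (by
        have : (0 : ℝ) ≤ n := Nat.cast_nonneg _
        linarith))
      rw [finrank_tower k L, mul_add, mul_comm (finrank ℚ k : ℝ)]
      have : (T.card : ℝ) ≤ finrank k L * M := by exact_mod_cast hT
      linarith
    rw [mul_add]
    linarith

/-- a common denominator -/
lemma exists_den {k : Type} [Field k] [NumberField k] {ι : Type} [Finite ι] (y : ι → k) :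
    ∃ m₀ : 𝓞 k, m₀ ≠ 0 ∧ ∃ z : ι → 𝓞 k, ∀ i, (z i : k) = (m₀ : k) * y i := by
  obtain ⟨b, hb⟩ := IsLocalization.exist_integer_multiples_of_finite (nonZeroDivisors (𝓞 k)) y
  refine ⟨b, nonZeroDivisors.ne_zero b.2, ?_⟩
  choose z hz using hb
  refine ⟨z, fun i => ?_⟩
  rw [← Algebra.smul_def]
  exact hz i

/-- the linear form -/
noncomputable def lin {k : Type} [Field k] {n : ℕ} (a : Fin (n + 1) → k) :
    MvPolynomial (Fin (n + 1)) k := ∑ j, MvPolynomial.C (a j) * MvPolynomial.X j

lemma lin_ne {k : Type} [Field k] {n : ℕ} (a : Fin (n + 1) → k) (ha : a ≠ 0) : lin a ≠ 0 := by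
  classical
  intro h
  obtain ⟨j, hj⟩ := Function.ne_iff.1 ha
  have h2 := congrArg (MvPolynomial.eval (Pi.single j (1 : k))) h
  simp only [lin, map_sum, map_mul, MvPolynomial.eval_C, MvPolynomial.eval_X, map_zero] at h2
  rw [Finset.sum_eq_single j (fun b _ hb => by rw [Pi.single_eq_of_ne hb, mul_zero])
    (fun h => absurd (Finset.mem_univ _) h), Pi.single_eq_same, mul_one] at h2
  exact hj h2

lemma lin_hom {k : Type} [Field k] {n : ℕ} (a : Fin (n + 1) → k) : (lin a).IsHomogeneous 1 := by
  refine MvPolynomial.IsHomogeneous.sum _ _ _ fun j _ => ?_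
  have := (MvPolynomial.isHomogeneous_C (Fin (n + 1)) (a j)).mul
    (MvPolynomial.isHomogeneous_X k j)
  rwa [zero_add] at this

lemma lin_aeval {k L : Type} [Field k] [CommRing L] [Algebra k L] {n : ℕ} (a : Fin (n + 1) → k)
    (x : Fin (n + 1) → L) : MvPolynomial.aeval x (lin a) = ∑ j, algebraMap k L (a j) * x j := by
  simp only [lin, map_sum, map_mul, MvPolynomial.aeval_C, MvPolynomial.aeval_X]

/-- substitution of a matrix -/
lemma subst_ne {k : Type} [Field k] [Infinite k] {n : ℕ} (G : MvPolynomial (Fin (n + 1)) k)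
    (hG : G ≠ 0) (δ : ℕ) (hGδ : G.IsHomogeneous δ) (N N' : Matrix (Fin (n + 1)) (Fin (n + 1)) k)
    (h : N * N' = 1) :
    MvPolynomial.aeval (fun a => lin (N a)) G ≠ 0 ∧
      (MvPolynomial.aeval (fun a => lin (N a)) G).IsHomogeneous δ := by
  constructor
  · intro h0
    apply hG
    refine MvPolynomial.funext fun x => ?_
    have h1 := congrArg (MvPolynomial.eval (N'.mulVec x)) h0
    rw [map_zero] at h1 ⊢
    rw [← h1, ← MvPolynomial.coe_aeval_eq_eval x, ← MvPolynomial.coe_aeval_eq_eval (N'.mulVec x)]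
    show MvPolynomial.aeval x G =
      MvPolynomial.aeval (N'.mulVec x) (MvPolynomial.aeval (fun a => lin (N a)) G)
    have h2 : MvPolynomial.aeval (N'.mulVec x) (MvPolynomial.aeval (fun a => lin (N a)) G) =
        MvPolynomial.aeval (fun a => MvPolynomial.aeval (N'.mulVec x) (lin (N a))) G := by
      have := MvPolynomial.comp_aeval_apply (fun a => lin (N a))
        (MvPolynomial.aeval (N'.mulVec x) : MvPolynomial (Fin (n + 1)) k →ₐ[k] k) G
      exact this
    rw [h2]
    congr 2
    funext a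
    rw [lin_aeval]
    have h3 : N.mulVec (N'.mulVec x) = x := by rw [Matrix.mulVec_mulVec, h, Matrix.one_mulVec]
    exact (congrFun h3 a).symm
  · have := hGδ.aeval (fun a => lin (N a)) (n := 1) fun a => lin_hom (N a)
    rwa [one_mul] at this

end Pool.Agent.K4H7.EZ
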