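import Pool.Agent.K4H7.EZ.A8

set_option autoImplicit false
set_option maxHeartbeats 400000

/-!
Points with a large excess outside a given hypersurface.
-/

namespace Pool.Agent.K4H7.EZ

open NumberField IsDedekindDomain Height Real Polynomial Module
open Pool.Agent.K4H7.ET (SU Sm nm vl val)
open Pool.Agent.Y733.VR

/-- the data over `k` -/
structure Data (k : Type) [Field k] [NumberField k] (m q : ℕ) (H : Fin q → Fin (m + 3) → k) where
  e : Fin (m + 3) ↪ Fin q
  j : Fin q
  hje : j ∉ Set.range e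
  A : Matrix (Fin (m + 3)) (Fin (m + 3)) k
  z : Fin (m + 3) × Fin (m + 3) → 𝓞 k
  hz : ∀ a i, A a i = (z (a, i) : k)
  P : Fin (m + 3) → k
  hP : ∀ l, P l ≠ 0
  m₀ : k
  hm : m₀ ≠ 0
  α : Fin (m + 3) → ℕ
  β : Fin (m + 3) → ℕ
  c : Fin (m + 3) → ℤ
  R : ℤ[X]
  b : ℕ
  l₀ : Fin (m + 3)
  l₁ : Fin (m + 3)
  hl₀ : α l₀ = 0 ∧ β l₀ = 0
  hl₁ : α l₁ + β l₁ = b
  hb : ∀ l, α l + β l ≤ b
  hR : R.natDegree + (m + 3) ≤ b
  hA : ∀ l i, ∑ a, H (e l) a * A a i = if l = i then P l else 0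
  hAj : ∀ i, ∑ a, H j a * A a i = m₀ * c i
  hid : ∑ l, C (c l) * fp (n := m + 2) α β l = (X - 1) ^ (m + 3) * R

/-- the point -/
noncomputable def Data.pt {k : Type} [Field k] [NumberField k] {m q : ℕ}
    {H : Fin q → Fin (m + 3) → k} (D : Data k m q H) {L : Type} [Field L] [Algebra k L] (s : L) :
    Fin (m + 3) → L := (D.A.map (algebraMap k L)).mulVec (fam (n := m + 2) D.α D.β s)

/-- the data exist, with a nonvanishing condition -/
theorem exists_data {k : Type} [Field k] [NumberField k] {m q : ℕ} (hq : m + 4 ≤ q)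
    (H : Fin q → Fin (m + 3) → k)
    (hH : ∀ I : Finset (Fin q), I.card ≤ m + 3 → LinearIndependent k (fun i : I => H i))
    (G : MvPolynomial (Fin (m + 3)) k) (hG : G ≠ 0) (δ : ℕ) (hGδ : G.IsHomogeneous δ) :
    ∃ (D : Data k m q H) (p : k[X]), p ≠ 0 ∧ ∀ (L : Type) [Field L] [Algebra k L] (s : L),
      aeval s p ≠ 0 → MvPolynomial.aeval (D.pt s) G ≠ 0 ∧ ∀ i, val (n := m + 2) (H i) (D.pt s) ≠ 0 := by
  classical
  obtain ⟨e, j, N, N', R, hje, hN, hNN, hN'N, hNR, hR0⟩ := exists_frame (n := m + 2) H hH hq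
  obtain ⟨m₀, hm₀, z, hz⟩ := exists_den (k := k)
    (fun ai : Fin (m + 3) × Fin (m + 3) => N ai.1 ai.2 * (R ai.2)⁻¹)
  have hm₀' : (m₀ : k) ≠ 0 := by simpa using hm₀
  have hH0 : ∀ i, H i ≠ 0 := by
    intro i
    have h1 := hH {i} (by simp)
    exact h1.ne_zero (⟨i, Finset.mem_singleton_self i⟩ : ({i} : Finset (Fin q)))
  -- the matrix before the choice of the family
  set N₁ : Matrix (Fin (m + 3)) (Fin (m + 3)) k := fun a i => (m₀ : k) * (N a i * (R i)⁻¹) with hN₁
  set N₂ : Matrix (Fin (m + 3)) (Fin (m + 3)) k := fun i a => (m₀ : k)⁻¹ * (R i * N' i a) with hN₂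
  have hN12 : N₁ * N₂ = 1 := by
    rw [← hNN]
    ext a b
    rw [Matrix.mul_apply, Matrix.mul_apply]
    refine Finset.sum_congr rfl fun i _ => ?_
    simp only [hN₁, hN₂]
    have := hR0 i
    field_simp
  -- the polynomial
  set G' : MvPolynomial (Fin (m + 3)) k := G * ∏ i, lin (n := m + 2) (H i) with hG'
  have hG'0 : G' ≠ 0 :=
    mul_ne_zero hG (Finset.prod_ne_zero_iff.2 fun i _ => lin_ne (n := m + 2) _ (hH0 i))
  have hG'h : G'.IsHomogeneous (δ + ∑ _i : Fin q, 1) :=
    hGδ.mul (MvPolynomial.IsHomogeneous.prod Finset.univ _ (fun _ => 1)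
      fun i _ => lin_hom (n := m + 2) (H i))
  obtain ⟨hΨ, hΨh⟩ := subst_ne (n := m + 2) G' hG'0 _ hG'h N₁ N₂ hN12
  set Ψ : MvPolynomial (Fin (m + 3)) k :=
    MvPolynomial.aeval (fun a => lin (n := m + 2) (N₁ a)) G' with hΨdef
  obtain ⟨α, β, c, Rp, hc, hRp1, hid, ⟨l₀, hl₀⟩, hne⟩ := exists_fam m Ψ hΨ _ hΨh
  obtain ⟨l₁, -, hl₁⟩ := Finset.exists_max_image Finset.univ (fun l => α l + β l)
    (Finset.univ_nonempty (α := Fin (m + 3)))
  have hRp0 : Rp ≠ 0 := by
    rintro rfl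
    simp at hRp1
  have hdeg : Rp.natDegree + (m + 3) ≤ α l₁ + β l₁ := by
    have h1 : ((X - 1 : ℤ[X]) ^ (m + 3) * Rp).natDegree = Rp.natDegree + (m + 3) := by
      have h2 : (X - 1 : ℤ[X]) = X - C 1 := by simp
      rw [h2, natDegree_mul (pow_ne_zero _ (X_sub_C_ne_zero 1)) hRp0, natDegree_pow,
        natDegree_X_sub_C]
      ring
    rw [← h1, ← hid]
    refine natDegree_sum_le_of_forall_le _ _ fun l _ => ?_
    refine (natDegree_C_mul_le _ _).trans ?_
    unfold fp
    refine natDegree_mul_le.trans ?_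
    have h2 : (X - 1 : ℤ[X]) = X - C 1 := by simp
    rw [natDegree_X_pow, h2, natDegree_pow, natDegree_X_sub_C, mul_one]
    exact hl₁ l (Finset.mem_univ l)
  set A : Matrix (Fin (m + 3)) (Fin (m + 3)) k := fun a i => N₁ a i * (c i : k) with hA
  refine ⟨{ e := e, j := j, hje := hje, A := A, z := fun ai => z ai * (c ai.2 : 𝓞 k), hz := ?_,
            P := fun l => (m₀ : k) * (R l)⁻¹ * (c l : k), hP := ?_, m₀ := (m₀ : k), hm := hm₀',
            α := α, β := β, c := c, R := Rp, b := α l₁ + β l₁, l₀ := l₀, l₁ := l₁, hl₀ := hl₀,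
            hl₁ := rfl, hb := fun l => hl₁ l (Finset.mem_univ l), hR := hdeg, hA := ?_,
            hAj := ?_, hid := hid },
    MvPolynomial.aeval (fun l => C ((c l : ℤ) : k) * fp (A := k) (n := m + 2) α β l) Ψ, hne, ?_⟩
  · intro a i
    have h1 := hz (a, i)
    simp only at h1
    have h2 : ((z (a, i) * (c i : 𝓞 k) : 𝓞 k) : k) = (z (a, i) : k) * (c i : k) := by
      show algebraMap (𝓞 k) k (z (a, i) * (c i : 𝓞 k)) = _
      rw [map_mul, map_intCast]
    rw [h2, h1]
  · intro l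
    exact mul_ne_zero (mul_ne_zero hm₀' (inv_ne_zero (hR0 l))) (Int.cast_ne_zero.2 (hc l))
  · intro l i
    have h1 : ∀ a, H (e l) a * A a i =
        (H (e l) a * N a i) * ((m₀ : k) * (R i)⁻¹ * (c i : k)) := by
      intro a
      simp only [hA, hN₁]
      ring
    rw [Finset.sum_congr rfl fun a _ => h1 a, ← Finset.sum_mul, hN l i]
    split_ifs with h
    · rw [h, one_mul]
    · rw [zero_mul]
  · intro i
    have h1 : ∀ a, H j a * A a i =
        (H j a * N a i) * ((m₀ : k) * (R i)⁻¹ * (c i : k)) := by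
      intro a
      simp only [hA, hN₁]
      ring
    rw [Finset.sum_congr rfl fun a _ => h1 a, ← Finset.sum_mul, hNR i]
    have := hR0 i
    field_simp
  · intro L _ _ s hs
    set x : Fin (m + 3) → L :=
      (A.map (algebraMap k L)).mulVec (fam (n := m + 2) α β s) with hx
    have h1 : aeval s (MvPolynomial.aeval
        (fun l => C ((c l : ℤ) : k) * fp (A := k) (n := m + 2) α β l) Ψ) =
        MvPolynomial.aeval x G' := by
      have h2 := MvPolynomial.comp_aeval_apply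
        (fun l => C ((c l : ℤ) : k) * fp (A := k) (n := m + 2) α β l)
        (aeval s : k[X] →ₐ[k] L) Ψ
      have h3 := MvPolynomial.comp_aeval_apply (fun a => lin (n := m + 2) (N₁ a))
        (MvPolynomial.aeval (fun l => aeval s (C ((c l : ℤ) : k) *
          fp (A := k) (n := m + 2) α β l)) : MvPolynomial (Fin (m + 3)) k →ₐ[k] L) G'
      refine h2.trans (h3.trans ?_)
      congr 2
      funext a
      rw [lin_aeval (n := m + 2), hx]
      unfold Matrix.mulVec dotProduct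
      refine Finset.sum_congr rfl fun i _ => ?_
      show algebraMap k L (N₁ a i) * _ = algebraMap k L (N₁ a i * (c i : k)) *
        fam (n := m + 2) α β s i
      unfold fam fp
      simp only [map_mul, map_pow, map_sub, map_one, aeval_X, aeval_C]
      ring
    rw [h1, hG', map_mul, map_prod] at hs
    refine ⟨left_ne_zero_of_mul hs, fun i => ?_⟩
    have h4 := Finset.prod_ne_zero_iff.1 (right_ne_zero_of_mul hs) i (Finset.mem_univ i)
    rw [lin_aeval (n := m + 2)] at h4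
    exact h4

end Pool.Agent.K4H7.EZ
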