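import Pool.Agent.K4H7.EZ.A9

set_option autoImplicit false
set_option maxHeartbeats 400000

/-!
Points with a large excess outside a given hypersurface: the estimate.
-/

namespace Pool.Agent.K4H7.EZ

open NumberField IsDedekindDomain Height Real Polynomial Module
open Pool.Agent.K4H7.ET (SU Sm nm vl val)
open Pool.Agent.Y733.VR

lemma aeval_id {k L : Type} [Field k] [NumberField k] [Field L] [Algebra k L] {m q : ℕ}
    {H : Fin q → Fin (m + 3) → k} (D : Data k m q H) (s : L) :
    ∑ l, (D.c l : L) * fam (n := m + 2) D.α D.β s l = (s - 1) ^ (m + 3) * aeval s D.R := by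
  have h := congrArg (aeval s) D.hid
  rw [map_sum, map_mul, map_pow, map_sub, map_one, aeval_X] at h
  rw [← h]
  refine Finset.sum_congr rfl fun l _ => ?_
  unfold fam fp
  simp only [map_mul, map_pow, map_sub, map_one, aeval_X, aeval_C]
  simp

theorem est_D {k : Type} [Field k] [NumberField k] {m q : ℕ}
    {H : Fin q → Fin (m + 3) → k} (D : Data k m q H) (M : ℕ) :
    ∃ C₁ C₂ : ℝ, ∀ (L : Type) [Field L] [NumberField L] [Algebra k L]
      (T : Finset (HeightOneSpectrum (𝓞 L))) (s : L), SU T s → SU T (s - 1) →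
      T.card ≤ finrank k L * M → (∀ i, val (n := m + 2) (H i) (D.pt s) ≠ 0) →
      logHeight (D.pt s) ≤ D.b * logHeight₁ s + finrank k L * C₁ ∧
      (m + 3) * logHeight₁ s - finrank k L * C₂ ≤ -(m + 3) * logHeight (D.pt s) +
        Sm T (fun f => ∑ i, Real.log (nm (n := m + 2) f (D.pt s) /
          f (val (n := m + 2) (H i) (D.pt s)))) := by
  classical
  set w : ℝ := finrank ℚ k + M with hw
  refine ⟨D.b * (w * log 2) +
      ∑ a, (w * log ((m + 2 : ℕ) + 2) + ∑ i, logHeight₁ (D.A a i)),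
    D.b * (w * log 2) + (∑ l, logHeight₁ (D.P l) + ∑ l, logHeight₁ (D.P l)) + logHeight₁ D.m₀ +
      w * log (1 + cs D.R) + 2 * ∑ i, (w * log ((m + 2 : ℕ) + 2) + ∑ a, logHeight₁ (H i a)), ?_⟩
  intro L _ _ _ T s hs hs1 hT hHx
  set W : ℝ := finrank ℚ L + T.card with hW
  set φ := algebraMap k L with hφ
  have hWw : W ≤ finrank k L * w := by
    rw [hW, hw, finrank_tower k L, mul_add, mul_comm (finrank ℚ k : ℝ)]
    have : (T.card : ℝ) ≤ finrank k L * M := by exact_mod_cast hT
    linarith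
  have hq0 : Nonempty (Fin q) := ⟨D.j⟩
  have hx0 : D.pt s ≠ 0 := by
    intro h
    apply hHx D.j
    rw [h]
    simp [val]
  have hAm : ∀ (u : Fin (m + 3) → L) (a : Fin (m + 3) → k),
      vl (n := m + 2) (fun b => φ (a b)) ((D.A.map φ).mulVec u) =
        ∑ i, φ (∑ b, a b * D.A b i) * u i := by
    intro u a
    unfold vl Matrix.mulVec dotProduct
    simp only [Finset.mul_sum]
    rw [Finset.sum_comm]
    refine Finset.sum_congr rfl fun i _ => ?_
    rw [map_sum, Finset.sum_mul]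
    refine Finset.sum_congr rfl fun b _ => ?_
    rw [map_mul]
    show φ (a b) * (φ (D.A b i) * u i) = _
    ring
  obtain ⟨h1, h2⟩ := est_L (n := m + 2) T (fun i b => φ (H i b)) D.e D.j D.hje (D.A.map φ)
    (fun l => φ (D.P l)) (fun l => (map_ne_zero φ).2 (D.hP l)) (φ D.m₀)
    ((map_ne_zero φ).2 D.hm) (by
      intro u l
      rw [hAm u (H (D.e l))]
      rw [Finset.sum_eq_single l]
      · rw [D.hA l l, if_pos rfl]
      · intro i _ hi
        rw [D.hA l i, if_neg (Ne.symm hi), map_zero, zero_mul]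
      · intro h
        exact absurd (Finset.mem_univ l) h) D.α D.β D.c D.R D.b (by
      intro u
      rw [hAm u (H D.j), Finset.mul_sum]
      refine Finset.sum_congr rfl fun i _ => ?_
      rw [D.hAj i, map_mul, map_intCast, mul_assoc]) (by
      intro v _ a i
      show FinitePlace.mk v (φ (D.A a i)) ≤ 1
      rw [D.hz a i]
      have h3 : φ (D.z (a, i) : k) = ((algebraMap (𝓞 k) (𝓞 L) (D.z (a, i)) : 𝓞 L) : L) := rfl
      rw [h3, FinitePlace.mk_apply]
      exact FinitePlace.norm_le_one L v _) D.l₀ D.l₁ D.hl₀ D.hl₁ D.hb D.hR s hs hs1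
    (aeval_id D s) (fun i => hHx i) hx0 W rfl
  have hlog2 : 0 ≤ log 2 := Real.log_nonneg (by norm_num)
  have hlogn : 0 ≤ log (((m + 2 : ℕ) : ℝ) + 2) := Real.log_nonneg (by
    have : (0 : ℝ) ≤ ((m + 2 : ℕ) : ℝ) := Nat.cast_nonneg _
    linarith)
  have hlogR : 0 ≤ log (1 + cs D.R) := Real.log_nonneg (by
    have := cs_nonneg D.R
    linarith)
  have g1 : W * log 2 ≤ finrank k L * (w * log 2) := by
    rw [← mul_assoc]
    exact mul_le_mul_of_nonneg_right hWw hlog2
  have g2 : W * log (((m + 2 : ℕ) : ℝ) + 2) ≤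
      finrank k L * (w * log (((m + 2 : ℕ) : ℝ) + 2)) := by
    rw [← mul_assoc]
    exact mul_le_mul_of_nonneg_right hWw hlogn
  have g3 : W * log (1 + cs D.R) ≤ finrank k L * (w * log (1 + cs D.R)) := by
    rw [← mul_assoc]
    exact mul_le_mul_of_nonneg_right hWw hlogR
  have g4 : D.b * (W * log 2) ≤ finrank k L * (D.b * (w * log 2)) := by
    have := mul_le_mul_of_nonneg_left g1 (Nat.cast_nonneg (α := ℝ) D.b)
    linarith
  have g5 : ∑ a, (W * log (((m + 2 : ℕ) : ℝ) + 2) + ∑ i, logHeight₁ ((D.A.map φ) a i)) ≤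
      finrank k L * ∑ a, (w * log (((m + 2 : ℕ) : ℝ) + 2) + ∑ i, logHeight₁ (D.A a i)) := by
    rw [Finset.mul_sum]
    refine Finset.sum_le_sum fun a _ => ?_
    rw [mul_add, Finset.mul_sum]
    refine add_le_add g2 (Finset.sum_le_sum fun i _ => ?_)
    exact (logHeight₁_ext (D.A a i)).le
  have g6 : ∑ i, (W * log (((m + 2 : ℕ) : ℝ) + 2) + ∑ a, logHeight₁ (φ (H i a))) ≤
      finrank k L * ∑ i, (w * log (((m + 2 : ℕ) : ℝ) + 2) + ∑ a, logHeight₁ (H i a)) := by
    rw [Finset.mul_sum]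
    refine Finset.sum_le_sum fun a _ => ?_
    rw [mul_add, Finset.mul_sum]
    refine add_le_add g2 (Finset.sum_le_sum fun i _ => ?_)
    exact (logHeight₁_ext (H a i)).le
  have g7 : ∑ l, logHeight₁ (φ (D.P l)) = finrank k L * ∑ l, logHeight₁ (D.P l) := by
    rw [Finset.mul_sum]
    exact Finset.sum_congr rfl fun l _ => logHeight₁_ext (D.P l)
  have g8 : logHeight₁ (φ D.m₀) = finrank k L * logHeight₁ D.m₀ := logHeight₁_ext D.m₀
  rw [g7, g8] at h2
  have e1 : (((m + 2 : ℕ) : ℝ) + 1) = m + 3 := by push_cast; ring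
  rw [e1] at h2
  refine ⟨?_, ?_⟩
  · refine h1.trans ?_
    rw [mul_add]
    linarith
  · refine le_trans ?_ h2
    rw [mul_add, mul_add, mul_add, mul_add]
    linarith

end Pool.Agent.K4H7.EZ
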