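import Pool.Agent.K4H7.EZ.B1

set_option autoImplicit false
set_option maxHeartbeats 400000

/-!
Points with a large excess outside a given hypersurface: the result.
-/

namespace Pool.Agent.K4H7.EZ

open NumberField IsDedekindDomain Height Real Polynomial Module
open Pool.Agent.K4H7.ET (SU Sm nm vl val)
open Pool.Agent.Y733.VR

theorem main {k : Type} [Field k] [NumberField k] {m q : ℕ} (hq : m + 4 ≤ q)
    (H : Fin q → Fin (m + 3) → k)
    (hH : ∀ I : Finset (Fin q), I.card ≤ m + 3 → LinearIndependent k (fun i : I => H i))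
    (S : Finset (HeightOneSpectrum (𝓞 k))) (r : ℕ) (μ κ : ℝ) (hκ : 0 ≤ κ)
    (hκμ : κ * μ < m + 3) (hgood : Good S r μ)
    (G : MvPolynomial (Fin (m + 3)) k) (hG : G ≠ 0) (δ : ℕ) (hGδ : G.IsHomogeneous δ) :
    ∃ ε : ℝ, 0 < ε ∧ ∀ C : ℝ, ∃ (L : Type) (_ : Field L) (_ : NumberField L) (_ : Algebra k L),
      finrank k L ≤ r ∧ ∃ x : Fin (m + 3) → L, x ≠ 0 ∧ (∀ i, val (n := m + 2) (H i) x ≠ 0) ∧
      MvPolynomial.aeval x G ≠ 0 ∧ ∃ T : Finset (HeightOneSpectrum (𝓞 L)),
        (∀ w, w ∈ T ↔ ∃ v ∈ S, w.asIdeal.LiesOver v.asIdeal) ∧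
        ε * logHeight x + κ * (finrank k L * finrank ℚ k * (ld L - ld k)) + C * finrank k L <
          -(m + 3) * logHeight x +
            Sm T (fun f => ∑ i, Real.log (nm (n := m + 2) f x /
              f (val (n := m + 2) (H i) x))) := by
  classical
  obtain ⟨D, p, hp, hDp⟩ := exists_data hq H hH G hG δ hGδ
  obtain ⟨C₁, C₂, hest⟩ := est_D D S.card
  obtain ⟨C₃, hroot⟩ := root_bound p hp S.card
  obtain ⟨C₀, hgood⟩ := hgood
  set e' : ℝ := m + 3 - κ * μ with he'
  have he'0 : 0 < e' := by rw [he']; linarith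
  set b : ℝ := (D.b : ℝ) with hb
  have hb0 : 0 < b := by
    have h1 := D.hR
    have h2 : 0 < D.b := by omega
    exact Nat.cast_pos.2 h2
  set ε : ℝ := e' / (2 * b) with hε
  have hε0 : 0 < ε := by positivity
  have hεb : ε * b = e' / 2 := by
    rw [hε]
    field_simp
  refine ⟨ε, hε0, fun C => ?_⟩
  set κk : ℝ := (finrank ℚ k : ℝ) with hκk
  have hκk0 : 0 < κk := deg_pos
  set C' : ℝ := C₂ + ε * C₁ + κ * κk * C₀ + C with hC'
  set B : ℝ := (max (2 * C' / e') C₃ + 1) / κk with hB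
  obtain ⟨L, iF, iN, iA, hfin, s, hsT, hsB, hsd⟩ := hgood B
  refine ⟨L, iF, iN, iA, hfin, ?_⟩
  have hTf := (Pool.Agent.K4H7.ET.card_above_le k L S).1
  set T : Finset (HeightOneSpectrum (𝓞 L)) := hTf.toFinset with hT
  have hTm : ∀ w, w ∈ T ↔ ∃ v ∈ S, w.asIdeal.LiesOver v.asIdeal := by
    intro w
    rw [hT, Set.Finite.mem_toFinset]
    rfl
  have hTc : T.card ≤ finrank k L * S.card := by
    rw [hT, ← Set.ncard_eq_toFinset_card _ hTf]
    exact (Pool.Agent.K4H7.ET.card_above_le k L S).2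
  obtain ⟨hs, hs1⟩ := hsT T fun w hw => (hTm w).2 hw
  set d : ℝ := (finrank k L : ℝ) with hd
  have hd0 : 0 < d := by
    have : 0 < finrank k L := finrank_pos
    rw [hd]
    exact_mod_cast this
  -- the height of `s`
  set η : ℝ := κk * hh s with hη
  have hhs : logHeight₁ s = d * η := by
    rw [hh_mul_deg, finrank_tower k L, hη, hd]
    ring
  have hηB : max (2 * C' / e') C₃ + 1 ≤ η := by
    rw [hη, hB] at *
    rw [div_le_iff₀ hκk0] at hsB
    linarith
  have hη1 : 2 * C' / e' < η := by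
    have := le_max_left (2 * C' / e') C₃
    linarith
  have hη2 : C₃ < η := by
    have := le_max_right (2 * C' / e') C₃
    linarith
  have hps : aeval s p ≠ 0 := by
    intro h
    have h1 := hroot L T s hs hTc h
    rw [hhs] at h1
    have h2 := le_of_mul_le_mul_left h1 hd0
    linarith
  obtain ⟨hGx, hHx⟩ := hDp L s hps
  have hx0 : D.pt s ≠ 0 := by
    intro h
    apply hHx D.j
    rw [h]
    simp [val]
  refine ⟨D.pt s, hx0, hHx, hGx, T, hTm, ?_⟩
  obtain ⟨h1, h2⟩ := hest L T s hs hs1 hTc hHx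
  refine lt_of_lt_of_le ?_ h2
  rw [hhs] at h1 ⊢
  have h3 : ε * logHeight (D.pt s) ≤ d * (e' / 2 * η + ε * C₁) := by
    have h4 := mul_le_mul_of_nonneg_left h1 hε0.le
    have h5 : ε * (b * (d * η) + d * C₁) = d * (ε * b * η + ε * C₁) := by ring
    rw [h5, hεb] at h4
    exact h4
  have h4 : κ * (d * κk * (ld L - ld k)) ≤ d * (κ * μ * η + κ * κk * C₀) := by
    have h5 : ld L - ld k ≤ μ * hh s + C₀ := by linarith
    have h6 : κ * (d * κk * (ld L - ld k)) ≤ κ * (d * κk * (μ * hh s + C₀)) :=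
      mul_le_mul_of_nonneg_left (mul_le_mul_of_nonneg_left h5 (by positivity)) hκ
    refine h6.trans (le_of_eq ?_)
    rw [hη]
    ring
  have h5 : 2 * C' < e' * η := by
    rw [div_lt_iff₀ he'0] at hη1
    linarith
  have h6 : d * (2 * C') < d * (e' * η) := mul_lt_mul_of_pos_left h5 hd0
  have h7 : (m + 3 : ℝ) = e' + κ * μ := by rw [he']; ring
  rw [h7]
  have h8 : d * (2 * C') = 2 * (d * C₂ + d * (ε * C₁) + d * (κ * κk * C₀) + C * d) := by
    rw [hC']
    ring
  rw [h8] at h6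
  nlinarith

end Pool.Agent.K4H7.EZ
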