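import Pool.Agent.K4H7.EZ.B2
import Pool.Agent.K4H7.ET.X4

set_option autoImplicit false
set_option maxHeartbeats 400000

/-!
The units for one place and degree at least four.
-/

namespace Pool.Agent.K4H7.EZ

open NumberField IsDedekindDomain Height Real Polynomial Module
open Pool.Agent.K4H7.ET (SU)
open Pool.Agent.Y733.VR

theorem good_four {k : Type} [Field k] [NumberField k] (S : Finset (HeightOneSpectrum (𝓞 k)))
    (hS : S = ∅) (r : ℕ) (hr : 4 ≤ r) : Good S r 1 := by
  classical
  obtain ⟨k', iF', iN', iA', hfin', T', hT', hcard⟩ := Pool.Agent.K4H7.ET.exists_ext S 2 (by norm_num)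
  have hT'e : T' = ∅ := by
    rw [Finset.eq_empty_iff_forall_notMem]
    intro w hw
    obtain ⟨v, hv, -⟩ := hT' w hw
    rw [hS] at hv
    exact absurd hv (Finset.notMem_empty v)
  rw [hT'e] at hcard
  have hpos : 0 < Fintype.card (InfinitePlace k) := Fintype.card_pos
  obtain ⟨C₀, hgood⟩ := good_two (k := k') ∅ (by omega) 2 le_rfl
  refine ⟨C₀ + (ld k' - ld k), fun B => ?_⟩
  obtain ⟨L, iF, iN, iA, hfin, s, hs, hsB, hsd⟩ := hgood B
  letI iA2 : Algebra k L := ((algebraMap k' L).comp (algebraMap k k')).toAlgebra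
  have iT : IsScalarTower k k' L := IsScalarTower.of_algebraMap_eq' rfl
  refine ⟨L, iF, iN, iA2, ?_, s, fun T _ => hs T fun w hw => ?_, hsB, by linarith⟩
  · rw [← Module.finrank_mul_finrank k k' L, hfin']
    omega
  · obtain ⟨v, hv, -⟩ := hw
    exact absurd hv (Finset.notMem_empty v)

end Pool.Agent.K4H7.EZ
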